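import Mathlib

set_option autoImplicit false

/-! # Counting solutions of `2^a + 2^b + 1 ≡ 0 (mod M)` in a box -/

open Finset

namespace Pool.Agent.L5helper72.FQ

/-- the number `2^a + 2^b + 1` -/
def nn (p : ℕ × ℕ) : ℕ := 2 ^ p.1 + 2 ^ p.2 + 1

/-- the box of exponents -/
def pairs (A : ℕ) : Finset (ℕ × ℕ) := range (A + 1) ×ˢ range (A + 1)

/-- the pairs of exponents in the box for which `M` divides `2^a + 2^b + 1` -/
def T (A M : ℕ) : Finset (ℕ × ℕ) := (pairs A).filter (fun p => M ∣ nn p)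

/-- the order of `2` modulo `M` -/
noncomputable def od (M : ℕ) : ℕ := orderOf (2 : ZMod M)

lemma od_dvd (M k : ℕ) : M ∣ 2 ^ k - 1 ↔ od M ∣ k := by
  unfold od
  rw [orderOf_dvd_iff_pow_eq_one, ← ZMod.natCast_eq_zero_iff, Nat.cast_sub Nat.one_le_two_pow]
  push_cast
  rw [sub_eq_zero]

lemma od_pos {M : ℕ} (hM : Odd M) : 0 < od M := by
  have h1 : M ∣ 2 ^ (Nat.totient M) - 1 := by
    have h4 : Nat.Coprime 2 M := (Nat.coprime_two_left).2 hM
    exact (Nat.modEq_iff_dvd' Nat.one_le_two_pow).1 (Nat.ModEq.pow_totient h4).symm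
  rw [od_dvd] at h1
  exact Nat.pos_of_dvd_of_pos h1 (Nat.totient_pos.2 hM.pos)

lemma cls {M a b b' : ℕ} (hM : Odd M) (h1 : M ∣ 2 ^ a + 2 ^ b + 1) (h2 : M ∣ 2 ^ a + 2 ^ b' + 1) (hb : b ≤ b') :
    M ∣ 2 ^ (b' - b) - 1 := by
  have h3 : M ∣ 2 ^ b * (2 ^ (b' - b) - 1) := by
    have h4 := Nat.dvd_sub h2 h1
    have h5 : 2 ^ a + 2 ^ b' + 1 - (2 ^ a + 2 ^ b + 1) = 2 ^ b * (2 ^ (b' - b) - 1) := by
      rw [Nat.mul_sub, ← pow_add, Nat.add_sub_cancel' hb, mul_one]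
      omega
    rwa [h5] at h4
  have h6 : Nat.Coprime M (2 ^ b) := (Nat.Coprime.pow_right b ((Nat.coprime_two_right).2 hM))
  exact h6.dvd_of_dvd_mul_left h3

lemma card_T1 {M : ℕ} (hM : Odd M) (A : ℕ) : (T A M).card ≤ (A + 1) * (A / od M + 1) := by
  classical
  have h0 := od_pos hM
  have h1 : (T A M).card ≤ ((range (A + 1)) ×ˢ (range (A / od M + 1))).card := by
    apply card_le_card_of_injOn (fun p => (p.1, p.2 / od M))
    · rintro ⟨a, b⟩ h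
      rw [mem_coe, T, mem_filter, pairs, mem_product, mem_range, mem_range] at h
      rw [mem_coe, mem_product, mem_range, mem_range]
      refine ⟨h.1.1, ?_⟩
      have := Nat.div_le_div_right (c := od M) (Nat.lt_succ_iff.1 h.1.2)
      exact Nat.lt_succ_of_le this
    · rintro ⟨a, b⟩ h ⟨a', b'⟩ h' he
      rw [mem_coe, T, mem_filter] at h h'
      simp only [Prod.mk.injEq] at he
      obtain ⟨e1, e2⟩ := he
      subst e1
      have h3 : M ∣ 2 ^ a + 2 ^ b + 1 := h.2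
      have h4 : M ∣ 2 ^ a + 2 ^ b' + 1 := h'.2
      have key : ∀ {c d : ℕ}, M ∣ 2 ^ a + 2 ^ c + 1 → M ∣ 2 ^ a + 2 ^ d + 1 → c ≤ d →
          c / od M = d / od M → c = d := by
        intro c d hc hd hcd hq
        have h5 := (od_dvd M (d - c)).1 (cls hM hc hd hcd)
        have h6 := Nat.div_add_mod c (od M)
        have h7 := Nat.div_add_mod d (od M)
        rw [← hq] at h7
        have h8 := Nat.mod_lt c h0
        have h9 := Nat.mod_lt d h0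
        have h10 : d - c < od M := by omega
        have := Nat.eq_zero_of_dvd_of_lt h5 h10
        omega
      rcases le_total b b' with h5 | h5
      · rw [key h3 h4 h5 e2]
      · rw [key h4 h3 h5 e2.symm]
  rwa [card_product, card_range, card_range] at h1

lemma val_unique {s t u v : ℕ} (hu : Odd u) (hv : Odd v) (h : 2 ^ s * u = 2 ^ t * v) : s = t := by
  have key : ∀ {s t u v : ℕ}, Odd u → 2 ^ s * u = 2 ^ t * v → ¬ s < t := by
    intro s t u v hu h hlt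
    obtain ⟨k, rfl⟩ := Nat.exists_eq_add_of_lt hlt
    have h1 : 2 ^ s * u = 2 ^ s * (2 * (2 ^ k * v)) := by
      rw [h]; ring
    have h2 := Nat.eq_of_mul_eq_mul_left (by positivity) h1
    rw [h2] at hu
    exact (Nat.not_odd_iff_even.2 (even_two_mul _)) hu
  have h1 := key hu h
  have h2 := key hv h.symm
  omega

lemma odd_pow_sub {i : ℕ} (hi : 1 ≤ i) : Odd (2 ^ i - 1) := by
  have h1 : Even (2 ^ i) := (even_two).pow_of_ne_zero (by omega)
  exact Nat.Even.sub_odd Nat.one_le_two_pow h1 odd_one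

lemma pow_diff {a b : ℕ} (h : a < b) : ∃ u : ℕ, Odd u ∧ (2 : ℤ) ^ b - 2 ^ a = ((2 ^ a * u : ℕ) : ℤ) := by
  refine ⟨2 ^ (b - a) - 1, odd_pow_sub (by omega), ?_⟩
  rw [Nat.mul_sub, ← pow_add, Nat.add_sub_cancel' h.le, mul_one, Nat.cast_sub (Nat.pow_le_pow_right (by norm_num) h.le)]
  push_cast
  ring

/-- three points with powers of two as coordinates are not collinear, except in trivial cases -/
lemma no_collinear {a1 a2 a3 b1 b2 b3 : ℕ} (h12 : a1 < a2) (h23 : a2 < a3) (hb12 : b1 ≠ b2) (hb23 : b2 ≠ b3)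
    (hd : a1 + b2 ≠ a2 + b1)
    (h : ((2 : ℤ) ^ a2 - 2 ^ a1) * (2 ^ b3 - 2 ^ b2) = (2 ^ a3 - 2 ^ a2) * (2 ^ b2 - 2 ^ b1)) : False := by
  obtain ⟨u1, hu1, e1⟩ := pow_diff h12
  obtain ⟨u2, hu2, e2⟩ := pow_diff h23
  have p1 : (0 : ℤ) < 2 ^ a2 - 2 ^ a1 := by
    rw [sub_pos]; exact pow_lt_pow_right₀ (by norm_num) h12
  have p2 : (0 : ℤ) < 2 ^ a3 - 2 ^ a2 := by
    rw [sub_pos]; exact pow_lt_pow_right₀ (by norm_num) h23
  rcases lt_or_gt_of_ne hb12 with hb1 | hb1 <;> rcases lt_or_gt_of_ne hb23 with hb2 | hb2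
  · obtain ⟨u3, hu3, e3⟩ := pow_diff hb1
    obtain ⟨u4, hu4, e4⟩ := pow_diff hb2
    rw [e1, e2, e3, e4] at h
    have h' : 2 ^ (a1 + b2) * (u1 * u4) = 2 ^ (a2 + b1) * (u2 * u3) := by
      have h2 : (2 ^ a1 * u1) * (2 ^ b2 * u4) = (2 ^ a2 * u2) * (2 ^ b1 * u3) := by exact_mod_cast h
      rw [pow_add, pow_add]
      linarith
    exact hd (val_unique (hu1.mul hu4) (hu2.mul hu3) h')
  · have p3 : (0 : ℤ) < 2 ^ b2 - 2 ^ b1 := by
      rw [sub_pos]; exact pow_lt_pow_right₀ (by norm_num) hb1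
    have p4 : (2 : ℤ) ^ b3 - 2 ^ b2 < 0 := by
      rw [sub_neg]; exact pow_lt_pow_right₀ (by norm_num) hb2
    have := mul_pos p2 p3
    have := mul_neg_of_pos_of_neg p1 p4
    linarith
  · have p3 : (2 : ℤ) ^ b2 - 2 ^ b1 < 0 := by
      rw [sub_neg]; exact pow_lt_pow_right₀ (by norm_num) hb1
    have p4 : (0 : ℤ) < 2 ^ b3 - 2 ^ b2 := by
      rw [sub_pos]; exact pow_lt_pow_right₀ (by norm_num) hb2
    have := mul_pos p1 p4
    have := mul_neg_of_pos_of_neg p2 p3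
    linarith
  · obtain ⟨u3, hu3, e3⟩ := pow_diff hb1
    obtain ⟨u4, hu4, e4⟩ := pow_diff hb2
    have h1 : ((2 : ℤ) ^ a2 - 2 ^ a1) * (2 ^ b2 - 2 ^ b3) = (2 ^ a3 - 2 ^ a2) * (2 ^ b1 - 2 ^ b2) := by
      linarith
    rw [e1, e2, e3, e4] at h1
    have h' : 2 ^ (a1 + b3) * (u1 * u4) = 2 ^ (a2 + b2) * (u2 * u3) := by
      have h2 : (2 ^ a1 * u1) * (2 ^ b3 * u4) = (2 ^ a2 * u2) * (2 ^ b2 * u3) := by exact_mod_cast h1
      rw [pow_add, pow_add]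
      linarith
    have := val_unique (hu1.mul hu4) (hu2.mul hu3) h'
    omega

lemma small_pow {M W i : ℕ} (hW : 4 ^ W ≤ M) (hi : 1 ≤ i) (hiW : i < W) : ¬ M ∣ 2 ^ i - 1 := by
  intro h
  have h1 : 1 < 2 ^ i := Nat.one_lt_two_pow (by omega)
  have h2 : 2 ^ i ≤ 2 ^ W := Nat.pow_le_pow_right (by norm_num) hiW.le
  have h3 : 2 ^ W ≤ 4 ^ W := Nat.pow_le_pow_left (by norm_num) W
  have h4 := Nat.le_of_dvd (by omega) h
  omega

lemma cls' {M a b b' : ℕ} (hM : Odd M) (h1 : M ∣ 2 ^ b + 2 ^ a + 1) (h2 : M ∣ 2 ^ b' + 2 ^ a + 1) (hb : b ≤ b') :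
    M ∣ 2 ^ (b' - b) - 1 :=
  cls (a := a) hM (by rwa [add_comm (2 ^ a)]) (by rwa [add_comm (2 ^ a)]) hb

/-- in a small window there are no three solutions -/
lemma tri {M W a0 b0 a1 a2 a3 b1 b2 b3 : ℕ} (hM : Odd M) (hW : 4 ^ W ≤ M) (ha : a1 < a2) (ha' : a2 < a3) (ha3 : a3 < W)
    (hb1 : b1 < W) (hb2 : b2 < W) (hb3 : b3 < W)
    (h1 : M ∣ 2 ^ (a0 + a1) + 2 ^ (b0 + b1) + 1) (h2 : M ∣ 2 ^ (a0 + a2) + 2 ^ (b0 + b2) + 1)
    (h3 : M ∣ 2 ^ (a0 + a3) + 2 ^ (b0 + b3) + 1) : False := by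
  have hb12 : b1 ≠ b2 := by
    rintro rfl
    have := cls' hM h1 h2 (by omega)
    exact small_pow hW (i := a2 - a1) (by omega) (by omega) (by rwa [show a0 + a2 - (a0 + a1) = a2 - a1 by omega] at this)
  have hb23 : b2 ≠ b3 := by
    rintro rfl
    have := cls' hM h2 h3 (by omega)
    exact small_pow hW (i := a3 - a2) (by omega) (by omega) (by rwa [show a0 + a3 - (a0 + a2) = a3 - a2 by omega] at this)
  have hd : a1 + b2 ≠ a2 + b1 := by
    intro he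
    have hbb : b2 = b1 + (a2 - a1) := by omega
    set i := a2 - a1 with hi
    have haa : a2 = a1 + i := by omega
    have h4 : M ∣ 2 ^ i - 1 := by
      have h5 : M ∣ 2 ^ i * (2 ^ (a0 + a1) + 2 ^ (b0 + b1) + 1) := Dvd.dvd.mul_left h1 _
      have h6 := Nat.dvd_sub h5 h2
      have h7 : 2 ^ i * (2 ^ (a0 + a1) + 2 ^ (b0 + b1) + 1) - (2 ^ (a0 + a2) + 2 ^ (b0 + b2) + 1) = 2 ^ i - 1 := by
        have e1 : 2 ^ (a0 + a2) = 2 ^ i * 2 ^ (a0 + a1) := by rw [haa, ← pow_add]; congr 1; omega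
        have e2 : 2 ^ (b0 + b2) = 2 ^ i * 2 ^ (b0 + b1) := by rw [hbb, ← pow_add]; congr 1; omega
        rw [e1, e2, mul_add, mul_add, mul_one]
        omega
      rwa [h7] at h6
    exact small_pow hW (by omega) (by omega) h4
  set X1 : ℤ := 2 ^ a1 with hX1
  set X2 : ℤ := 2 ^ a2 with hX2
  set X3 : ℤ := 2 ^ a3 with hX3
  set Y1 : ℤ := 2 ^ b1 with hY1
  set Y2 : ℤ := 2 ^ b2 with hY2
  set Y3 : ℤ := 2 ^ b3 with hY3
  have hM0 : 0 < M := hM.pos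
  have hbd : ∀ i : ℕ, i < W → (0 : ℤ) < 2 ^ i ∧ (2 : ℤ) ^ i ≤ 2 ^ (W - 1) := by
    intro i hi
    exact ⟨by positivity, pow_le_pow_right₀ (by norm_num) (by omega)⟩
  obtain ⟨x1, x1'⟩ := hbd a1 (by omega)
  obtain ⟨x2, x2'⟩ := hbd a2 (by omega)
  obtain ⟨x3, x3'⟩ := hbd a3 (by omega)
  obtain ⟨y1, y1'⟩ := hbd b1 hb1
  obtain ⟨y2, y2'⟩ := hbd b2 hb2
  obtain ⟨y3, y3'⟩ := hbd b3 hb3
  rw [← hX1] at x1 x1'
  rw [← hX2] at x2 x2'
  rw [← hX3] at x3 x3'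
  rw [← hY1] at y1 y1'
  rw [← hY2] at y2 y2'
  rw [← hY3] at y3 y3'
  set G : ℤ := 2 ^ (W - 1) with hG
  have hGM : 4 * (G * G) ≤ M := by
    have e1 : 4 * (G * G) = 4 ^ W := by
      rw [hG, ← mul_pow]
      norm_num
      rw [← pow_succ']
      congr 1
      omega
    rw [e1]
    exact_mod_cast hW
  set D : ℤ := (X2 - X1) * (Y3 - Y2) - (X3 - X2) * (Y2 - Y1) with hD
  have hdvd : (M : ℤ) ∣ 2 ^ (a0 + b0) * D := by
    have g1 : (M : ℤ) ∣ 2 ^ a0 * X1 + 2 ^ b0 * Y1 + 1 := by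
      rw [hX1, hY1, ← pow_add, ← pow_add]; exact_mod_cast h1
    have g2 : (M : ℤ) ∣ 2 ^ a0 * X2 + 2 ^ b0 * Y2 + 1 := by
      rw [hX2, hY2, ← pow_add, ← pow_add]; exact_mod_cast h2
    have g3 : (M : ℤ) ∣ 2 ^ a0 * X3 + 2 ^ b0 * Y3 + 1 := by
      rw [hX3, hY3, ← pow_add, ← pow_add]; exact_mod_cast h3
    have e1 : (2 : ℤ) ^ (a0 + b0) * D =
        (2 ^ a0 * X1 + 2 ^ b0 * Y1 + 1) * (2 ^ a0 * X2 * (2 ^ b0 * Y3) - 2 ^ a0 * X3 * (2 ^ b0 * Y2)) -
        (2 ^ a0 * X2 + 2 ^ b0 * Y2 + 1) * (2 ^ a0 * X1 * (2 ^ b0 * Y3) - 2 ^ a0 * X3 * (2 ^ b0 * Y1)) +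
        (2 ^ a0 * X3 + 2 ^ b0 * Y3 + 1) * (2 ^ a0 * X1 * (2 ^ b0 * Y2) - 2 ^ a0 * X2 * (2 ^ b0 * Y1)) := by
      rw [hD, pow_add]
      ring
    rw [e1]
    exact dvd_add (dvd_sub (g1.mul_right _) (g2.mul_right _)) (g3.mul_right _)
  have hcop : IsCoprime (M : ℤ) (2 ^ (a0 + b0)) := by
    apply IsCoprime.pow_right
    have := Nat.isCoprime_iff_coprime.2 ((Nat.coprime_two_right).2 hM)
    exact_mod_cast this
  have hdvd' : (M : ℤ) ∣ D := hcop.dvd_of_dvd_mul_left hdvd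
  have hpb : ∀ {x y : ℤ}, 0 < x → x ≤ G → 0 < y → y ≤ G → 0 < x * y ∧ x * y ≤ G * G := by
    intro x y hx hx' hy hy'
    exact ⟨mul_pos hx hy, mul_le_mul hx' hy' hy.le (by linarith)⟩
  have hDabs : |D| < M := by
    have q1 := hpb x2 x2' y3 y3'
    have q2 := hpb x2 x2' y1 y1'
    have q3 := hpb x1 x1' y3 y3'
    have q4 := hpb x1 x1' y2 y2'
    have q5 := hpb x3 x3' y2 y2'
    have q6 := hpb x3 x3' y1 y1'
    have hGG : 0 < G * G := mul_pos (by positivity) (by positivity)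
    have e1 : D = X2 * Y3 - X1 * Y3 + X1 * Y2 - X3 * Y2 + X3 * Y1 - X2 * Y1 := by rw [hD]; ring
    rw [abs_lt]
    constructor <;> linarith
  have hD0 : D = 0 := Int.eq_zero_of_abs_lt_dvd hdvd' hDabs
  exact no_collinear ha ha' hb12 hb23 hd (by rw [hD] at hD0; linarith)

lemma card_T2 {M W : ℕ} (hM : Odd M) (hW1 : 1 ≤ W) (hW : 4 ^ W ≤ M) (A : ℕ) : (T A M).card ≤ 2 * (A / W + 1) ^ 2 := by
  classical
  have h1 := card_le_mul_card_image_of_maps_to (s := T A M) (t := (range (A / W + 1)) ×ˢ (range (A / W + 1)))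
    (f := fun p => (p.1 / W, p.2 / W)) (by
      rintro ⟨a, b⟩ h
      rw [T, mem_filter, pairs, mem_product, mem_range, mem_range] at h
      rw [mem_product, mem_range, mem_range]
      exact ⟨Nat.lt_succ_of_le (Nat.div_le_div_right (Nat.lt_succ_iff.1 h.1.1)),
        Nat.lt_succ_of_le (Nat.div_le_div_right (Nat.lt_succ_iff.1 h.1.2))⟩) 2 (by
      rintro ⟨i, j⟩ -
      by_contra hc
      rw [not_le, Finset.two_lt_card] at hc
      obtain ⟨⟨a1, b1⟩, m1, ⟨a2, b2⟩, m2, ⟨a3, b3⟩, m3, n12, n13, n23⟩ := hc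
      rw [mem_filter, T, mem_filter] at m1 m2 m3
      simp only [Prod.mk.injEq] at m1 m2 m3
      obtain ⟨⟨-, d1⟩, e1, f1⟩ := m1
      obtain ⟨⟨-, d2⟩, e2, f2⟩ := m2
      obtain ⟨⟨-, d3⟩, e3, f3⟩ := m3
      unfold nn at d1 d2 d3
      simp only at d1 d2 d3
      have hr : ∀ {x y : ℕ}, x / W = y → ∃ r, r < W ∧ x = W * y + r := by
        intro x y h
        exact ⟨x % W, Nat.mod_lt _ hW1, by rw [← h]; exact (Nat.div_add_mod x W).symm⟩
      obtain ⟨r1, hr1, rfl⟩ := hr e1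
      obtain ⟨r2, hr2, rfl⟩ := hr e2
      obtain ⟨r3, hr3, rfl⟩ := hr e3
      obtain ⟨s1, hs1, rfl⟩ := hr f1
      obtain ⟨s2, hs2, rfl⟩ := hr f2
      obtain ⟨s3, hs3, rfl⟩ := hr f3
      have key : ∀ {r s s' : ℕ}, s < W → s' < W → M ∣ 2 ^ (W * i + r) + 2 ^ (W * j + s) + 1 →
          M ∣ 2 ^ (W * i + r) + 2 ^ (W * j + s') + 1 → ¬ s < s' := by
        intro r s s' hs hs' k1 k2 hlt
        have := cls hM k1 k2 (by omega)
        exact small_pow hW (i := s' - s) (by omega) (by omega)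
          (by rwa [show W * j + s' - (W * j + s) = s' - s by omega] at this)
      have c12 : r1 ≠ r2 := by
        rintro rfl
        have k1 := key hs1 hs2 d1 d2
        have k2 := key hs2 hs1 d2 d1
        apply n12
        rw [show s1 = s2 by omega]
      have c13 : r1 ≠ r3 := by
        rintro rfl
        have k1 := key hs1 hs3 d1 d3
        have k2 := key hs3 hs1 d3 d1
        apply n13
        rw [show s1 = s3 by omega]
      have c23 : r2 ≠ r3 := by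
        rintro rfl
        have k1 := key hs2 hs3 d2 d3
        have k2 := key hs3 hs2 d3 d2
        apply n23
        rw [show s2 = s3 by omega]
      rcases lt_or_gt_of_ne c12 with g1 | g1 <;> rcases lt_or_gt_of_ne c13 with g2 | g2 <;>
        rcases lt_or_gt_of_ne c23 with g3 | g3
      · exact tri hM hW g1 g3 hr3 hs1 hs2 hs3 d1 d2 d3
      · exact tri hM hW g2 g3 hr2 hs1 hs3 hs2 d1 d3 d2
      · omega
      · exact tri hM hW g2 g1 hr2 hs3 hs1 hs2 d3 d1 d2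
      · exact tri hM hW g1 g2 hr3 hs2 hs1 hs3 d2 d1 d3
      · omega
      · exact tri hM hW g3 g2 hr1 hs2 hs3 hs1 d2 d3 d1
      · exact tri hM hW g3 g1 hr1 hs3 hs2 hs1 d3 d2 d1)
  rw [card_product, card_range] at h1
  calc (T A M).card ≤ 2 * ((A / W + 1) * (A / W + 1)) := h1
    _ = _ := by ring

end Pool.Agent.L5helper72.FQ
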