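import Mathlib
import Pool.Agent.L5helper72.FQ.Gap

set_option autoImplicit false

/-! # Prime power divisors of the numbers `2^a + 2^b + 1` on average over a box -/

open Finset

namespace Pool.Agent.L5helper72.FQ

open ArithmeticFunction (vonMangoldt)


lemma Lam_nonneg (m : ℕ) : 0 ≤ ArithmeticFunction.vonMangoldt m := ArithmeticFunction.vonMangoldt_nonneg

/-- the prime powers with a given order of `2` -/
lemma sum_order (𝓜 : Finset ℕ) (e : ℕ) (he : 1 ≤ e) : ∑ M ∈ 𝓜 with od M = e, ArithmeticFunction.vonMangoldt M ≤ e := by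
  have h1 : (𝓜.filter (fun M => od M = e)) ⊆ (2 ^ e - 1).divisors := by
    intro M hM
    rw [mem_filter] at hM
    rw [Nat.mem_divisors]
    refine ⟨(od_dvd M e).2 (by rw [hM.2]), ?_⟩
    have : 1 < 2 ^ e := Nat.one_lt_two_pow (by omega)
    omega
  calc ∑ M ∈ 𝓜 with od M = e, ArithmeticFunction.vonMangoldt M ≤ ∑ M ∈ (2 ^ e - 1).divisors, ArithmeticFunction.vonMangoldt M :=
        sum_le_sum_of_subset_of_nonneg h1 fun M _ _ => Lam_nonneg M
    _ = Real.log ((2 ^ e - 1 : ℕ) : ℝ) := ArithmeticFunction.vonMangoldt_sum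
    _ ≤ Real.log ((2 : ℝ) ^ e) := by
        apply Real.log_le_log
        · have : 1 < 2 ^ e := Nat.one_lt_two_pow (by omega)
          exact_mod_cast (by omega : 0 < 2 ^ e - 1)
        · have : 2 ^ e - 1 ≤ 2 ^ e := Nat.sub_le _ _
          exact_mod_cast this
    _ = e * Real.log 2 := by rw [Real.log_pow]
    _ ≤ e * 1 := by
        apply mul_le_mul_of_nonneg_left _ (by positivity)
        have := Real.log_two_lt_d9
        linarith
    _ = e := mul_one _

/-- the sum of `ArithmeticFunction.vonMangoldt(M)` over the order of `2` modulo `M` -/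
lemma sum_div_order (𝓜 : Finset ℕ) (hodd : ∀ M ∈ 𝓜, Odd M) (E : ℕ) (hE : 1 ≤ E) :
    ∑ M ∈ 𝓜, ArithmeticFunction.vonMangoldt M / (od M : ℝ) ≤ E + (∑ M ∈ 𝓜, ArithmeticFunction.vonMangoldt M) / E := by
  classical
  have hE0 : (0 : ℝ) < E := by exact_mod_cast hE
  rw [← sum_filter_add_sum_filter_not 𝓜 (fun M => od M ≤ E)]
  apply add_le_add
  · have h1 : ∀ M ∈ 𝓜.filter (fun M => od M ≤ E), od M ∈ Icc 1 E := by
      intro M hM
      rw [mem_filter] at hM
      rw [mem_Icc]
      exact ⟨od_pos (hodd M hM.1), hM.2⟩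
    rw [← sum_fiberwise_of_maps_to h1]
    calc ∑ e ∈ Icc 1 E, ∑ M ∈ (𝓜.filter (fun M => od M ≤ E)) with od M = e, ArithmeticFunction.vonMangoldt M / (od M : ℝ)
        ≤ ∑ e ∈ Icc 1 E, (1 : ℝ) := by
          apply sum_le_sum
          intro e he
          rw [mem_Icc] at he
          have he0 : (0 : ℝ) < e := by exact_mod_cast he.1
          have h2 : ∑ M ∈ (𝓜.filter (fun M => od M ≤ E)) with od M = e, ArithmeticFunction.vonMangoldt M / (od M : ℝ) =
              (∑ M ∈ (𝓜.filter (fun M => od M ≤ E)) with od M = e, ArithmeticFunction.vonMangoldt M) / e := by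
            rw [sum_div]
            apply sum_congr rfl
            intro M hM
            rw [(mem_filter.1 hM).2]
          rw [h2, div_le_one he0]
          exact sum_order _ e he.1
      _ = E := by simp
  · calc ∑ M ∈ 𝓜 with ¬ od M ≤ E, ArithmeticFunction.vonMangoldt M / (od M : ℝ) ≤ ∑ M ∈ 𝓜 with ¬ od M ≤ E, ArithmeticFunction.vonMangoldt M / (E : ℝ) := by
          apply sum_le_sum
          intro M hM
          rw [mem_filter, not_le] at hM
          have : (E : ℝ) ≤ od M := by exact_mod_cast hM.2.le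
          exact div_le_div_of_nonneg_left (Lam_nonneg M) hE0 this
      _ ≤ ∑ M ∈ 𝓜, ArithmeticFunction.vonMangoldt M / (E : ℝ) := by
          apply sum_le_sum_of_subset_of_nonneg (filter_subset _ _)
          intro M _ _
          exact div_nonneg (Lam_nonneg M) hE0.le
      _ = _ := by rw [sum_div]

/-- the average of the sum of `ArithmeticFunction.vonMangoldt` over divisors in a given set -/
theorem gen (A : ℕ) (𝓜 : Finset ℕ) (hodd : ∀ M ∈ 𝓜, Odd M) (E : ℕ) (hE : 1 ≤ E) :
    ∑ M ∈ 𝓜, ArithmeticFunction.vonMangoldt M * ((T A M).card : ℝ) ≤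
      (A + 1) * ((∑ M ∈ 𝓜, ArithmeticFunction.vonMangoldt M) + A * (E + (∑ M ∈ 𝓜, ArithmeticFunction.vonMangoldt M) / E)) := by
  calc ∑ M ∈ 𝓜, ArithmeticFunction.vonMangoldt M * ((T A M).card : ℝ) ≤ ∑ M ∈ 𝓜, ArithmeticFunction.vonMangoldt M * ((A + 1) * (A / (od M : ℝ) + 1)) := by
        apply sum_le_sum
        intro M hM
        apply mul_le_mul_of_nonneg_left _ (Lam_nonneg M)
        calc ((T A M).card : ℝ) ≤ (((A + 1) * (A / od M + 1) : ℕ) : ℝ) := by
              exact_mod_cast card_T1 (hodd M hM) A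
          _ = (A + 1) * (((A / od M : ℕ) : ℝ) + 1) := by push_cast; ring
          _ ≤ (A + 1) * (A / (od M : ℝ) + 1) := by
              have := Nat.cast_div_le (α := ℝ) (m := A) (n := od M)
              gcongr
    _ = (A + 1) * ((∑ M ∈ 𝓜, ArithmeticFunction.vonMangoldt M) + A * ∑ M ∈ 𝓜, ArithmeticFunction.vonMangoldt M / (od M : ℝ)) := by
        rw [mul_sum, ← sum_add_distrib, mul_sum]
        apply sum_congr rfl
        intro M _
        ring
    _ ≤ _ := by
        have := sum_div_order 𝓜 hodd E hE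
        gcongr

lemma swap (A : ℕ) (𝓜 : Finset ℕ) (w : ℕ → ℝ) :
    ∑ p ∈ pairs A, ∑ M ∈ 𝓜 with M ∣ nn p, w M = ∑ M ∈ 𝓜, w M * ((T A M).card : ℝ) := by
  classical
  simp_rw [sum_filter]
  rw [sum_comm]
  apply sum_congr rfl
  intro M _
  unfold T
  rw [← sum_filter, sum_const, nsmul_eq_mul, mul_comm]

/-- the odd primes up to `Y` -/
def op (Y : ℕ) : Finset ℕ := (Icc 3 Y).filter Nat.Prime

lemma op_odd {Y q : ℕ} (hq : q ∈ op Y) : q.Prime ∧ Odd q ∧ 3 ≤ q ∧ q ≤ Y := by
  unfold op at hq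
  rw [mem_filter, mem_Icc] at hq
  refine ⟨hq.2, hq.2.odd_of_ne_two (by omega), hq.1.1, hq.1.2⟩

/-- the odd numbers up to `Q` -/
def odds (Q : ℕ) : Finset ℕ := (Icc 1 Q).filter Odd

lemma Lam_odds (Q : ℕ) : ∑ M ∈ odds Q, ArithmeticFunction.vonMangoldt M ≤ Q * Real.log Q := by
  unfold odds
  calc ∑ M ∈ (Icc 1 Q).filter Odd, ArithmeticFunction.vonMangoldt M ≤ ∑ M ∈ Icc 1 Q, ArithmeticFunction.vonMangoldt M :=
        sum_le_sum_of_subset_of_nonneg (filter_subset _ _) fun M _ _ => Lam_nonneg M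
    _ ≤ ∑ M ∈ Icc 1 Q, Real.log Q := by
        apply sum_le_sum
        intro M hM
        rw [mem_Icc] at hM
        refine ArithmeticFunction.vonMangoldt_le_log.trans (Real.log_le_log ?_ ?_)
        · exact_mod_cast hM.1
        · exact_mod_cast hM.2
    _ = _ := by rw [sum_const, Nat.card_Icc, nsmul_eq_mul]; simp

/-- first average: all divisors up to `Q` -/
theorem avg1 (A Q E : ℕ) (hE : 1 ≤ E) (S : ℝ) (hS : Q * Real.log Q ≤ S) :
    ∑ p ∈ pairs A, ∑ M ∈ odds Q with M ∣ nn p, ArithmeticFunction.vonMangoldt M ≤ (A + 1) * (S + A * (E + S / E)) := by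
  rw [swap]
  refine (gen A (odds Q) (fun M hM => (mem_filter.1 hM).2) E hE).trans ?_
  have hE0 : (0 : ℝ) < E := by exact_mod_cast hE
  have := (Lam_odds Q).trans hS
  gcongr

/-- prime powers with bounded exponents -/
def pw (Y R : ℕ) : Finset ℕ := ((op Y) ×ˢ (Icc 1 R)).image (fun x => x.1 ^ x.2)

lemma pw_inj (Y R : ℕ) : Set.InjOn (fun x : ℕ × ℕ => x.1 ^ x.2) ((op Y ×ˢ Icc 1 R : Finset (ℕ × ℕ)) : Set (ℕ × ℕ)) := by
  rintro ⟨q, k⟩ h ⟨q', k'⟩ h' he
  rw [mem_coe, mem_product, mem_Icc] at h h'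
  simp only at h h' he
  obtain ⟨k, rfl⟩ : ∃ j, k = j + 1 := ⟨k - 1, by omega⟩
  obtain ⟨k', rfl⟩ : ∃ j, k' = j + 1 := ⟨k' - 1, by omega⟩
  have := Nat.Prime.pow_inj (op_odd h.1).1 (op_odd h'.1).1 he
  rw [this.1, this.2]

lemma pw_sum (Y R : ℕ) (f : ℕ → ℝ) : ∑ M ∈ pw Y R, f M = ∑ q ∈ op Y, ∑ k ∈ Icc 1 R, f (q ^ k) := by
  unfold pw
  rw [sum_image (pw_inj Y R), sum_product]

lemma Lam_pw (Y R : ℕ) : ∑ M ∈ pw Y R, ArithmeticFunction.vonMangoldt M ≤ R * (Y * Real.log Y) := by
  rw [pw_sum]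
  calc ∑ q ∈ op Y, ∑ k ∈ Icc 1 R, ArithmeticFunction.vonMangoldt (q ^ k) ≤ ∑ q ∈ op Y, ∑ k ∈ Icc 1 R, Real.log Y := by
        apply sum_le_sum
        intro q hq
        apply sum_le_sum
        intro k hk
        obtain ⟨h1, h2, h3, h4⟩ := op_odd hq
        rw [mem_Icc] at hk
        rw [ArithmeticFunction.vonMangoldt_apply_pow (by omega), ArithmeticFunction.vonMangoldt_apply_prime h1]
        exact Real.log_le_log (by exact_mod_cast (by omega : 0 < q)) (by exact_mod_cast h4)
    _ = (op Y).card * (R * Real.log Y) := by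
        rw [sum_const, sum_const, Nat.card_Icc, nsmul_eq_mul, nsmul_eq_mul]
        simp
    _ ≤ Y * (R * Real.log Y) := by
        apply mul_le_mul_of_nonneg_right
        · have : (op Y).card ≤ Y := by
            unfold op
            refine (card_filter_le _ _).trans ?_
            rw [Nat.card_Icc]
            omega
          exact_mod_cast this
        · have := Real.log_natCast_nonneg Y
          positivity
    _ = _ := by ring

lemma pw_odd {Y R M : ℕ} (hM : M ∈ pw Y R) : Odd M := by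
  unfold pw at hM
  rw [mem_image] at hM
  obtain ⟨⟨q, k⟩, h, rfl⟩ := hM
  rw [mem_product] at h
  exact (op_odd h.1).2.1.pow

/-- high powers of a prime -/
lemma high {q A k : ℕ} (hq : Odd q) (hq3 : 3 ≤ q) (hA : 1 ≤ A) (hk : 2 ≤ k) (hkA : k ≤ A + 2) :
    ((T A (q ^ k)).card : ℝ) ≤ 72 * (A : ℝ) ^ 2 * ((k : ℝ) ^ 2)⁻¹ := by
  have hk0 : (0 : ℝ) < k := by exact_mod_cast (by omega : 0 < k)
  set W := k / 2 with hW
  have hW1 : 1 ≤ W := by omega
  have hW3 : k ≤ 3 * W := by omega
  have hWM : 4 ^ W ≤ q ^ k := by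
    calc 4 ^ W = 2 ^ (2 * W) := by rw [pow_mul]; norm_num
      _ ≤ 2 ^ k := Nat.pow_le_pow_right (by norm_num) (by omega)
      _ ≤ q ^ k := Nat.pow_le_pow_left (by omega) k
  have h1 := card_T2 hq.pow hW1 hWM A
  have hA0 : (1 : ℝ) ≤ A := by exact_mod_cast hA
  have h2 : ((A / W : ℕ) : ℝ) + 1 ≤ 6 * A / k := by
    have hW0 : (0 : ℝ) < W := by exact_mod_cast hW1
    have h3 : ((A / W : ℕ) : ℝ) ≤ A / (W : ℝ) := Nat.cast_div_le
    have h4 : (A : ℝ) / (W : ℝ) ≤ 3 * A / k := by
      rw [div_le_div_iff₀ hW0 hk0]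
      have : (k : ℝ) ≤ 3 * W := by exact_mod_cast hW3
      nlinarith
    have h5 : (1 : ℝ) ≤ 3 * A / k := by
      rw [le_div_iff₀ hk0]
      have : (k : ℝ) ≤ A + 2 := by exact_mod_cast hkA
      linarith
    have h6 : (6 : ℝ) * A / k = 3 * A / k + 3 * A / k := by ring
    linarith
  calc ((T A (q ^ k)).card : ℝ) ≤ ((2 * (A / W + 1) ^ 2 : ℕ) : ℝ) := by exact_mod_cast h1
    _ = 2 * (((A / W : ℕ) : ℝ) + 1) ^ 2 := by push_cast; ring
    _ ≤ 2 * (6 * A / k) ^ 2 := by gcongr
    _ = _ := by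
        field_simp
        ring

lemma high_sum {q A R : ℕ} (hq : Odd q) (hq3 : 3 ≤ q) (hA : 1 ≤ A) (hR : 1 ≤ R) :
    ∑ k ∈ Ioc R (A + 2), ((T A (q ^ k)).card : ℝ) ≤ 72 * (A : ℝ) ^ 2 / R := by
  rcases le_or_gt R (A + 2) with h | h
  · calc ∑ k ∈ Ioc R (A + 2), ((T A (q ^ k)).card : ℝ) ≤ ∑ k ∈ Ioc R (A + 2), 72 * (A : ℝ) ^ 2 * ((k : ℝ) ^ 2)⁻¹ := by
          apply sum_le_sum
          intro k hk
          rw [mem_Ioc] at hk
          exact high hq hq3 hA (by omega) (by omega)
      _ = 72 * (A : ℝ) ^ 2 * ∑ k ∈ Ioc R (A + 2), ((k : ℝ) ^ 2)⁻¹ := by rw [mul_sum]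
      _ ≤ 72 * (A : ℝ) ^ 2 * ((R : ℝ)⁻¹ - ((A + 2 : ℕ) : ℝ)⁻¹) := by
          apply mul_le_mul_of_nonneg_left _ (by positivity)
          exact sum_Ioc_inv_sq_le_sub (by omega) h
      _ ≤ 72 * (A : ℝ) ^ 2 * (R : ℝ)⁻¹ := by
          apply mul_le_mul_of_nonneg_left _ (by positivity)
          have : (0 : ℝ) ≤ ((A + 2 : ℕ) : ℝ)⁻¹ := by positivity
          linarith
      _ = _ := by rw [div_eq_mul_inv]
  · rw [Ioc_eq_empty_of_le h.le, sum_empty]
    positivity

/-- exponents as numbers of powers -/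
lemma fac_le {A q : ℕ} (hq : q.Prime) (p : ℕ × ℕ) (hp : p ∈ pairs A) :
    (nn p).factorization q ≤ ((Icc 1 (A + 2)).filter (fun k => q ^ k ∣ nn p)).card := by
  have hn0 : nn p ≠ 0 := Nat.succ_ne_zero _
  have h1 : Icc 1 ((nn p).factorization q) ⊆ (Icc 1 (A + 2)).filter (fun k => q ^ k ∣ nn p) := by
    intro k hk
    rw [mem_Icc] at hk
    have h2 : q ^ k ∣ nn p := (pow_dvd_pow q hk.2).trans (Nat.ordProj_dvd _ _)
    rw [mem_filter, mem_Icc]
    refine ⟨⟨hk.1, ?_⟩, h2⟩
    have h3 : 2 ^ k ≤ 2 ^ (A + 2) := by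
      rw [pairs, mem_product, mem_range, mem_range] at hp
      have h4 : 2 ^ p.1 ≤ 2 ^ A := Nat.pow_le_pow_right (by norm_num) (by omega)
      have h5 : 2 ^ p.2 ≤ 2 ^ A := Nat.pow_le_pow_right (by norm_num) (by omega)
      have h6 : 1 ≤ 2 ^ A := Nat.one_le_two_pow
      calc 2 ^ k ≤ q ^ k := Nat.pow_le_pow_left hq.two_le k
        _ ≤ nn p := Nat.le_of_dvd (Nat.pos_of_ne_zero hn0) h2
        _ ≤ 2 ^ (A + 2) := by
            unfold nn
            rw [pow_add]
            omega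
    exact (Nat.pow_le_pow_iff_right (by norm_num)).1 h3
  have := card_le_card h1
  rwa [Nat.card_Icc, Nat.add_sub_cancel] at this

/-- second average: the smooth part with multiplicities -/
theorem avg2 (A Y R E : ℕ) (hA : 1 ≤ A) (hE : 1 ≤ E) (hR : 1 ≤ R) (S : ℝ) (hS : R * (Y * Real.log Y) ≤ S) :
    ∑ p ∈ pairs A, ∑ q ∈ op Y, ((nn p).factorization q : ℝ) * Real.log q ≤
      (A + 1) * (S + A * (E + S / E)) + 72 * (A : ℝ) ^ 2 / R * (Y * Real.log Y) := by
  classical
  have hE0 : (0 : ℝ) < E := by exact_mod_cast hE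
  calc ∑ p ∈ pairs A, ∑ q ∈ op Y, ((nn p).factorization q : ℝ) * Real.log q
      ≤ ∑ p ∈ pairs A, ∑ q ∈ op Y, ∑ k ∈ Icc 1 (A + 2), if q ^ k ∣ nn p then Real.log q else 0 := by
        apply sum_le_sum
        intro p hp
        apply sum_le_sum
        intro q hq
        rw [← sum_filter, sum_const, nsmul_eq_mul]
        apply mul_le_mul_of_nonneg_right _ (Real.log_natCast_nonneg q)
        exact_mod_cast fac_le (op_odd hq).1 p hp
    _ = ∑ q ∈ op Y, ∑ k ∈ Icc 1 (A + 2), Real.log q * ((T A (q ^ k)).card : ℝ) := by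
        rw [sum_comm]
        apply sum_congr rfl
        intro q _
        rw [sum_comm]
        apply sum_congr rfl
        intro k _
        rw [← sum_filter, sum_const, nsmul_eq_mul, mul_comm]
        rfl
    _ ≤ ∑ q ∈ op Y, ((∑ k ∈ Icc 1 R, ArithmeticFunction.vonMangoldt (q ^ k) * ((T A (q ^ k)).card : ℝ)) + Real.log Y * (72 * (A : ℝ) ^ 2 / R)) := by
        apply sum_le_sum
        intro q hq
        obtain ⟨h1, h2, h3, h4⟩ := op_odd hq
        have hlq : 0 ≤ Real.log q := Real.log_natCast_nonneg q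
        have hlY : Real.log q ≤ Real.log Y := Real.log_le_log (by exact_mod_cast (by omega : 0 < q)) (by exact_mod_cast h4)
        calc ∑ k ∈ Icc 1 (A + 2), Real.log q * ((T A (q ^ k)).card : ℝ)
            ≤ ∑ k ∈ Icc 1 R ∪ Ioc R (A + 2), Real.log q * ((T A (q ^ k)).card : ℝ) := by
              apply sum_le_sum_of_subset_of_nonneg
              · intro k hk
                rw [mem_Icc] at hk
                rw [mem_union, mem_Icc, mem_Ioc]
                omega
              · intro k _ _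
                positivity
          _ ≤ ∑ k ∈ Icc 1 R, Real.log q * ((T A (q ^ k)).card : ℝ) +
              ∑ k ∈ Ioc R (A + 2), Real.log q * ((T A (q ^ k)).card : ℝ) := by
              rw [← sum_union_inter]
              have : 0 ≤ ∑ k ∈ Icc 1 R ∩ Ioc R (A + 2), Real.log q * ((T A (q ^ k)).card : ℝ) :=
                sum_nonneg fun k _ => by positivity
              linarith
          _ ≤ _ := by
              apply add_le_add
              · apply le_of_eq
                apply sum_congr rfl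
                intro k hk
                rw [mem_Icc] at hk
                rw [ArithmeticFunction.vonMangoldt_apply_pow (by omega), ArithmeticFunction.vonMangoldt_apply_prime h1]
              · rw [← mul_sum]
                have h5 := high_sum h2 h3 hA hR
                have h6 : 0 ≤ ∑ k ∈ Ioc R (A + 2), ((T A (q ^ k)).card : ℝ) := sum_nonneg fun k _ => by positivity
                exact mul_le_mul hlY h5 h6 (by linarith)
    _ = ∑ M ∈ pw Y R, ArithmeticFunction.vonMangoldt M * ((T A M).card : ℝ) + (op Y).card * (Real.log Y * (72 * (A : ℝ) ^ 2 / R)) := by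
        rw [sum_add_distrib, pw_sum, sum_const, nsmul_eq_mul]
    _ ≤ (A + 1) * (S + A * (E + S / E)) + Y * (Real.log Y * (72 * (A : ℝ) ^ 2 / R)) := by
        apply add_le_add
        · refine (gen A (pw Y R) (fun M hM => pw_odd hM) E hE).trans ?_
          have := (Lam_pw Y R).trans hS
          gcongr
        · apply mul_le_mul_of_nonneg_right
          · have : (op Y).card ≤ Y := by
              unfold op
              refine (card_filter_le _ _).trans ?_
              rw [Nat.card_Icc]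
              omega
            exact_mod_cast this
          · have := Real.log_natCast_nonneg Y
            positivity
    _ = _ := by ring

end Pool.Agent.L5helper72.FQ
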