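import Mathlib
import Pool.Agent.L5helper72.FQ.Sums

set_option autoImplicit false

/-! # Smooth parts of integers -/

open Finset

namespace Pool.Agent.L5helper72.FQ


/-- the product of the prime powers `p ^ v` exactly dividing `m` with `p ≤ y` -/
noncomputable def smooth (y : ℝ) (m : ℕ) : ℕ :=
  ∏ p ∈ m.primeFactors with ((p : ℕ) : ℝ) ≤ y, p ^ m.factorization p

/-- the product of the primes `p ≤ y` dividing `m` -/
noncomputable def radSmooth (y : ℝ) (m : ℕ) : ℕ :=
  ∏ p ∈ m.primeFactors with ((p : ℕ) : ℝ) ≤ y, p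

lemma log_smooth (y : ℝ) (m : ℕ) : Real.log (smooth y m : ℝ) =
    ∑ p ∈ m.primeFactors with ((p : ℕ) : ℝ) ≤ y, (m.factorization p : ℝ) * Real.log p := by
  unfold smooth
  push_cast
  rw [Real.log_prod]
  · apply sum_congr rfl
    intro p _
    rw [Real.log_pow]
  · intro p hp
    rw [mem_filter] at hp
    have := (Nat.prime_of_mem_primeFactors hp.1).pos
    positivity

lemma log_radSmooth (y : ℝ) (m : ℕ) : Real.log (radSmooth y m : ℝ) =
    ∑ p ∈ m.primeFactors with ((p : ℕ) : ℝ) ≤ y, Real.log p := by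
  unfold radSmooth
  push_cast
  rw [Real.log_prod]
  intro p hp
  rw [mem_filter] at hp
  have := (Nat.prime_of_mem_primeFactors hp.1).pos
  positivity

lemma smooth_pos (y : ℝ) (m : ℕ) : 0 < smooth y m := by
  unfold smooth
  apply prod_pos
  intro p hp
  rw [mem_filter] at hp
  have := (Nat.prime_of_mem_primeFactors hp.1).pos
  positivity

lemma radSmooth_pos (y : ℝ) (m : ℕ) : 0 < radSmooth y m := by
  unfold radSmooth
  apply prod_pos
  intro p hp
  rw [mem_filter] at hp
  exact (Nat.prime_of_mem_primeFactors hp.1).pos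

lemma not8 (p : ℕ × ℕ) : ¬ 2 ^ 3 ∣ nn p := by
  obtain ⟨a, b⟩ := p
  unfold nn
  simp only
  have h : ∀ a : ℕ, 2 ^ a % 8 = 1 ∨ 2 ^ a % 8 = 2 ∨ 2 ^ a % 8 = 4 ∨ 2 ^ a % 8 = 0 := by
    intro a
    rcases Nat.lt_or_ge a 3 with h | h
    · interval_cases a <;> simp
    · obtain ⟨k, rfl⟩ := Nat.exists_eq_add_of_le h
      right; right; right
      rw [pow_add]
      omega
  have h1 := h a
  have h2 := h b
  omega

lemma fac_two (p : ℕ × ℕ) : (nn p).factorization 2 ≤ 2 := by
  by_contra h
  rw [not_le] at h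
  have h1 : 2 ^ 3 ∣ nn p := (pow_dvd_pow 2 (by omega)).trans (Nat.ordProj_dvd _ 2)
  exact not8 p h1

lemma log_smooth_le (y : ℝ) (p : ℕ × ℕ) : Real.log (smooth y (nn p) : ℝ) ≤
    2 + ∑ q ∈ op ⌊y⌋₊, ((nn p).factorization q : ℝ) * Real.log q := by
  classical
  rw [log_smooth]
  have hsub : (nn p).primeFactors.filter (fun q : ℕ => (q : ℝ) ≤ y) ⊆ {2} ∪ op ⌊y⌋₊ := by
    intro q hq
    rw [mem_filter] at hq
    have h1 := Nat.prime_of_mem_primeFactors hq.1
    rw [mem_union, mem_singleton]
    rcases h1.eq_two_or_odd' with h | h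
    · exact Or.inl h
    · right
      unfold op
      rw [mem_filter, mem_Icc]
      refine ⟨⟨?_, Nat.le_floor hq.2⟩, h1⟩
      have := h1.two_le
      rcases h with ⟨k, hk⟩
      omega
  have hnn : ∀ q : ℕ, 0 ≤ ((nn p).factorization q : ℝ) * Real.log q := by
    intro q
    have := Real.log_natCast_nonneg q
    positivity
  calc ∑ q ∈ (nn p).primeFactors with ((q : ℕ) : ℝ) ≤ y, ((nn p).factorization q : ℝ) * Real.log q
      ≤ ∑ q ∈ {2} ∪ op ⌊y⌋₊, ((nn p).factorization q : ℝ) * Real.log q :=
        sum_le_sum_of_subset_of_nonneg hsub fun q _ _ => hnn q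
    _ ≤ ∑ q ∈ ({2} : Finset ℕ), ((nn p).factorization q : ℝ) * Real.log q +
        ∑ q ∈ op ⌊y⌋₊, ((nn p).factorization q : ℝ) * Real.log q := by
        rw [← sum_union_inter]
        have : 0 ≤ ∑ q ∈ {2} ∩ op ⌊y⌋₊, ((nn p).factorization q : ℝ) * Real.log q := sum_nonneg fun q _ => hnn q
        linarith
    _ ≤ _ := by
        apply add_le_add_left
        rw [sum_singleton]
        have h1 : ((nn p).factorization 2 : ℝ) ≤ 2 := by exact_mod_cast fac_two p
        have h2 := Real.log_two_lt_d9
        have h3 := Real.log_two_gt_d9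
        push_cast
        calc ((nn p).factorization 2 : ℝ) * Real.log 2 ≤ 2 * 1 := by
              apply mul_le_mul h1 (by linarith) (by linarith) (by norm_num)
          _ = 2 := by norm_num

lemma log_radSmooth_le (y : ℝ) (p : ℕ × ℕ) : Real.log (radSmooth y (nn p) : ℝ) ≤
    2 + ∑ M ∈ odds ⌊y⌋₊ with M ∣ nn p, ArithmeticFunction.vonMangoldt M := by
  classical
  rw [log_radSmooth]
  set U := (odds ⌊y⌋₊).filter (fun M => M ∣ nn p) with hU
  have hsub : (nn p).primeFactors.filter (fun q : ℕ => (q : ℝ) ≤ y) ⊆ {2} ∪ U := by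
    intro q hq
    rw [mem_filter] at hq
    have h1 := Nat.prime_of_mem_primeFactors hq.1
    rw [mem_union, mem_singleton]
    rcases h1.eq_two_or_odd' with h | h
    · exact Or.inl h
    · right
      rw [hU, mem_filter, odds, mem_filter, mem_Icc]
      exact ⟨⟨⟨h1.one_lt.le, Nat.le_floor hq.2⟩, h⟩, Nat.dvd_of_mem_primeFactors hq.1⟩
  calc ∑ q ∈ (nn p).primeFactors with ((q : ℕ) : ℝ) ≤ y, Real.log q
      = ∑ q ∈ (nn p).primeFactors with ((q : ℕ) : ℝ) ≤ y, ArithmeticFunction.vonMangoldt q := by
        apply sum_congr rfl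
        intro q hq
        rw [mem_filter] at hq
        rw [ArithmeticFunction.vonMangoldt_apply_prime (Nat.prime_of_mem_primeFactors hq.1)]
    _ ≤ ∑ q ∈ {2} ∪ U, ArithmeticFunction.vonMangoldt q := sum_le_sum_of_subset_of_nonneg hsub fun q _ _ => Lam_nonneg q
    _ ≤ ∑ q ∈ ({2} : Finset ℕ), ArithmeticFunction.vonMangoldt q + ∑ q ∈ U, ArithmeticFunction.vonMangoldt q := by
        rw [← sum_union_inter]
        have : 0 ≤ ∑ q ∈ {2} ∩ U, ArithmeticFunction.vonMangoldt q := sum_nonneg fun q _ => Lam_nonneg q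
        linarith
    _ ≤ _ := by
        apply add_le_add_left
        rw [sum_singleton, ArithmeticFunction.vonMangoldt_apply_prime Nat.prime_two]
        have h2 := Real.log_two_lt_d9
        push_cast
        linarith

lemma log_eq_sum {m : ℕ} (hm : m ≠ 0) : Real.log m = ∑ p ∈ m.primeFactors, (m.factorization p : ℝ) * Real.log p := by
  conv_lhs => rw [← Nat.prod_factorization_pow_eq_self hm]
  rw [Finsupp.prod, Nat.support_factorization]
  push_cast
  rw [Real.log_prod]
  · apply sum_congr rfl
    intro p _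
    rw [Real.log_pow]
  · intro p hp
    have := (Nat.prime_of_mem_primeFactors hp).pos
    positivity

lemma omega_le {m : ℕ} (hm : m ≠ 0) {y : ℝ} (hy : 1 < y) :
    (m.primeFactors.card : ℝ) ≤ Real.log (radSmooth y m : ℝ) / Real.log 2 + Real.log m / Real.log y := by
  classical
  have hly : 0 < Real.log y := Real.log_pos hy
  have hl2 : 0 < Real.log 2 := Real.log_pos (by norm_num)
  have h0 : (m.primeFactors.card : ℝ) = ((m.primeFactors.filter (fun q : ℕ => (q : ℝ) ≤ y)).card : ℝ) +
      ((m.primeFactors.filter (fun q : ℕ => ¬ (q : ℝ) ≤ y)).card : ℝ) := by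
    exact_mod_cast (card_filter_add_card_filter_not (s := m.primeFactors) (fun q : ℕ => (q : ℝ) ≤ y)).symm
  rw [h0]
  apply add_le_add
  · rw [le_div_iff₀ hl2, log_radSmooth, ← nsmul_eq_mul, ← sum_const]
    apply sum_le_sum
    intro q hq
    rw [mem_filter] at hq
    have := (Nat.prime_of_mem_primeFactors hq.1).two_le
    exact Real.log_le_log (by norm_num) (by exact_mod_cast this)
  · rw [le_div_iff₀ hly, log_eq_sum hm, ← nsmul_eq_mul, ← sum_const]
    calc ∑ q ∈ m.primeFactors.filter (fun q : ℕ => ¬ (q : ℝ) ≤ y), Real.log y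
        ≤ ∑ q ∈ m.primeFactors.filter (fun q : ℕ => ¬ (q : ℝ) ≤ y), (m.factorization q : ℝ) * Real.log q := by
          apply sum_le_sum
          intro q hq
          rw [mem_filter, not_le] at hq
          have h1 : (1 : ℝ) ≤ m.factorization q := by
            exact_mod_cast (Nat.prime_of_mem_primeFactors hq.1).factorization_pos_of_dvd hm (Nat.dvd_of_mem_primeFactors hq.1)
          have h2 : Real.log y ≤ Real.log q := Real.log_le_log (by linarith) hq.2.le
          nlinarith
      _ ≤ _ := by
          apply sum_le_sum_of_subset_of_nonneg (filter_subset _ _)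
          intro q _ _
          have := Real.log_natCast_nonneg q
          positivity

lemma Omega_le {m : ℕ} (hm : m ≠ 0) {y : ℝ} (hy : 1 < y) :
    (m.primeFactorsList.length : ℝ) ≤ Real.log (smooth y m : ℝ) / Real.log 2 + Real.log m / Real.log y := by
  classical
  have hly : 0 < Real.log y := Real.log_pos hy
  have hl2 : 0 < Real.log 2 := Real.log_pos (by norm_num)
  have e0 : (m.primeFactorsList.length : ℝ) = ∑ q ∈ m.primeFactors, (m.factorization q : ℝ) := by
    have := ArithmeticFunction.cardFactors_eq_sum_factorization (n := m)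
    rw [ArithmeticFunction.cardFactors_apply, Finsupp.sum, Nat.support_factorization] at this
    rw [this]
    push_cast
    rfl
  rw [e0, ← sum_filter_add_sum_filter_not m.primeFactors (fun q : ℕ => (q : ℝ) ≤ y)]
  apply add_le_add
  · rw [le_div_iff₀ hl2, log_smooth, sum_mul]
    apply sum_le_sum
    intro q hq
    rw [mem_filter] at hq
    have := (Nat.prime_of_mem_primeFactors hq.1).two_le
    have : Real.log 2 ≤ Real.log q := Real.log_le_log (by norm_num) (by exact_mod_cast this)
    gcongr
  · rw [le_div_iff₀ hly, log_eq_sum hm, sum_mul]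
    calc ∑ q ∈ m.primeFactors.filter (fun q : ℕ => ¬ (q : ℝ) ≤ y), (m.factorization q : ℝ) * Real.log y
        ≤ ∑ q ∈ m.primeFactors.filter (fun q : ℕ => ¬ (q : ℝ) ≤ y), (m.factorization q : ℝ) * Real.log q := by
          apply sum_le_sum
          intro q hq
          rw [mem_filter, not_le] at hq
          have h2 : Real.log y ≤ Real.log q := Real.log_le_log (by linarith) hq.2.le
          gcongr
      _ ≤ _ := by
          apply sum_le_sum_of_subset_of_nonneg (filter_subset _ _)
          intro q _ _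
          have := Real.log_natCast_nonneg q
          positivity

lemma smooth_mono {y y' : ℝ} (h : y ≤ y') (m : ℕ) : smooth y m ≤ smooth y' m := by
  unfold smooth
  apply Finset.prod_le_prod_of_subset_of_one_le'
  · intro p hp
    rw [mem_filter] at hp ⊢
    exact ⟨hp.1, hp.2.trans h⟩
  · intro p hp _
    rw [mem_filter] at hp
    exact Nat.one_le_pow _ _ (Nat.prime_of_mem_primeFactors hp.1).pos

lemma radSmooth_mono {y y' : ℝ} (h : y ≤ y') (m : ℕ) : radSmooth y m ≤ radSmooth y' m := by
  unfold radSmooth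
  apply Finset.prod_le_prod_of_subset_of_one_le'
  · intro p hp
    rw [mem_filter] at hp ⊢
    exact ⟨hp.1, hp.2.trans h⟩
  · intro p hp _
    rw [mem_filter] at hp
    exact (Nat.prime_of_mem_primeFactors hp.1).pos

/-- if all prime factors are at most `y` the smooth part is everything -/
lemma smooth_all {m : ℕ} (hm : m ≠ 0) {y : ℝ} (h : ∀ q : ℕ, q.Prime → q ∣ m → (q : ℝ) ≤ y) : smooth y m = m := by
  unfold smooth
  rw [filter_true_of_mem (fun q hq => h q (Nat.prime_of_mem_primeFactors hq) (Nat.dvd_of_mem_primeFactors hq))]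
  conv_rhs => rw [← Nat.prod_factorization_pow_eq_self hm]
  rw [Finsupp.prod, Nat.support_factorization]

end Pool.Agent.L5helper72.FQ
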