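import Mathlib
import Pool.Agent.L5helper72.FQ.Parts
import Pool.Agent.R494.SPL3
import Pool.Agent.H510R2.Div

set_option autoImplicit false

/-! # From the exponents to the quadruples -/

open Finset Filter Asymptotics
open scoped Topology

namespace Pool.Agent.L5helper72.FQ

open Pool.Agent.R494.SPL


/-- small fibres, every exponent -/
lemma few (ε : ℝ) (hε : 0 < ε) : ∀ᶠ n : ℕ in atTop, ∀ P : ℕ,
    (((quad n).filter (fun v => val2 v = P)).card : ℝ) ≤ (n : ℝ) ^ ε := by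
  classical
  obtain ⟨C, hC, hD⟩ := Pool.Agent.H510R2.divisor_bound (ε / 4) (by positivity)
  have e2 : ∀ᶠ n : ℕ in atTop, 16 * (C * (2 : ℝ) ^ (ε / 4) + 1) ^ 2 ≤ (n : ℝ) ^ (ε / 2) :=
    ((tendsto_rpow_atTop (by positivity)).comp tendsto_natCast_atTop_atTop).eventually_ge_atTop _
  filter_upwards [e2, eventually_ge_atTop 3] with n h2 h4 P
  have hn1 : (1 : ℝ) ≤ n := by exact_mod_cast (by omega : 1 ≤ n)
  have hn0 : (0 : ℝ) < n := by linarith
  have hne : 1 ≤ (n : ℝ) ^ (ε / 4) := Real.one_le_rpow hn1 (by positivity)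
  have h2e : (0 : ℝ) < (2 : ℝ) ^ (ε / 4) := by positivity
  set D : ℕ := ⌊(C * (2 : ℝ) ^ (ε / 4) + 1) * (n : ℝ) ^ (ε / 4)⌋₊ with hDdef
  have hC0 : 0 ≤ C * (2 : ℝ) ^ (ε / 4) := by
    have : 0 ≤ C := by
      have := hD 1 le_rfl
      have h3 : (0 : ℝ) ≤ ((Nat.divisors 1).card : ℝ) := by positivity
      have h5 : ((1 : ℕ) : ℝ) ^ (ε / 4) = 1 := by simp
      rw [h5, mul_one] at this
      linarith
    positivity
  have hD1 : 1 ≤ D := by
    apply Nat.le_floor
    push_cast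
    nlinarith
  have hD' : ∀ k : ℕ, 1 ≤ k → k ≤ 2 * n → k.divisors.card ≤ D := by
    intro k hk hkn
    apply Nat.le_floor
    refine (hD k hk).trans ?_
    have h5 : (k : ℝ) ≤ 2 * n := by exact_mod_cast hkn
    have h6 : (k : ℝ) ^ (ε / 4) ≤ (2 : ℝ) ^ (ε / 4) * (n : ℝ) ^ (ε / 4) := by
      calc (k : ℝ) ^ (ε / 4) ≤ (2 * n : ℝ) ^ (ε / 4) := by gcongr
        _ = _ := Real.mul_rpow (by norm_num) (by positivity)
    have hC' : 0 ≤ C := by
      by_contra hc
      rw [not_le] at hc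
      have := mul_neg_of_neg_of_pos hc h2e
      linarith
    calc C * (k : ℝ) ^ (ε / 4) ≤ C * ((2 : ℝ) ^ (ε / 4) * (n : ℝ) ^ (ε / 4)) := by gcongr
      _ = (C * (2 : ℝ) ^ (ε / 4)) * (n : ℝ) ^ (ε / 4) := by ring
      _ ≤ (C * (2 : ℝ) ^ (ε / 4) + 1) * (n : ℝ) ^ (ε / 4) := by nlinarith
  have h5 := fibre2 n P D hD1 hD'
  have g2 : (D : ℝ) ≤ (C * (2 : ℝ) ^ (ε / 4) + 1) * (n : ℝ) ^ (ε / 4) := Nat.floor_le (by positivity)
  calc (((quad n).filter (fun v => val2 v = P)).card : ℝ) ≤ ((16 * D ^ 2 : ℕ) : ℝ) := by exact_mod_cast h5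
    _ = 16 * (D : ℝ) ^ 2 := by push_cast; ring
    _ ≤ 16 * ((C * (2 : ℝ) ^ (ε / 4) + 1) * (n : ℝ) ^ (ε / 4)) ^ 2 := by gcongr
    _ = (16 * (C * (2 : ℝ) ^ (ε / 4) + 1) ^ 2) * ((n : ℝ) ^ (ε / 4) * (n : ℝ) ^ (ε / 4)) := by ring
    _ ≤ (n : ℝ) ^ (ε / 2) * ((n : ℝ) ^ (ε / 4) * (n : ℝ) ^ (ε / 4)) := by gcongr
    _ = (n : ℝ) ^ ε := by
        rw [← Real.rpow_add hn0, ← Real.rpow_add hn0]
        congr 1
        ring

/-- the exponents of a quadruple -/
def ex (v : ℕ × ℕ × ℕ × ℕ) : ℕ × ℕ := (v.1 + v.2.1, v.2.2.1 + v.2.2.2)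

lemma nn_ex (v : ℕ × ℕ × ℕ × ℕ) : nn (ex v) = val2 v := rfl

lemma ex_mem {n : ℕ} {v : ℕ × ℕ × ℕ × ℕ} (hv : v ∈ quad n) : ex v ∈ pairs (Nat.sqrt (2 * n)) := by
  rw [mem_quad] at hv
  rw [pairs, mem_product, mem_range, mem_range]
  constructor
  · apply Nat.lt_succ_of_le
    apply le_sqrt_of_sq
    rw [hv]
    show (v.1 + v.2.1) ^ 2 ≤ _
    have := sq_nonneg ((v.1 : ℤ) - v.2.1)
    zify
    nlinarith [sq_nonneg (v.2.2.1 : ℤ), sq_nonneg (v.2.2.2 : ℤ)]
  · apply Nat.lt_succ_of_le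
    apply le_sqrt_of_sq
    rw [hv]
    show (v.2.2.1 + v.2.2.2) ^ 2 ≤ _
    have := sq_nonneg ((v.2.2.1 : ℤ) - v.2.2.2)
    zify
    nlinarith [sq_nonneg (v.1 : ℤ), sq_nonneg (v.2.1 : ℤ)]

lemma bad_quads (n : ℕ) (F : ℝ) (hF : ∀ P : ℕ, (((quad n).filter (fun v => val2 v = P)).card : ℝ) ≤ F)
    (B : Finset (ℕ × ℕ)) : (((quad n).filter (fun v => ex v ∈ B)).card : ℝ) ≤ F * B.card := by
  classical
  have h0 : 0 ≤ F := le_trans (by positivity) (hF 0)
  have h1 := card_le_mul_card_image_of_maps_to (s := (quad n).filter (fun v => ex v ∈ B)) (t := B)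
    (f := ex) (fun v hv => (mem_filter.1 hv).2) ⌊F⌋₊ (by
      intro b _
      apply Nat.le_floor
      refine le_trans ?_ (hF (nn b))
      have : ((quad n).filter (fun v => ex v ∈ B)).filter (fun v => ex v = b) ⊆ (quad n).filter (fun v => val2 v = nn b) := by
        intro v hv
        rw [mem_filter, mem_filter] at hv
        rw [mem_filter]
        exact ⟨hv.1.1, by rw [← hv.2]; rfl⟩
      exact_mod_cast card_le_card this)
  calc (((quad n).filter (fun v => ex v ∈ B)).card : ℝ) ≤ ((⌊F⌋₊ * B.card : ℕ) : ℝ) := by exact_mod_cast h1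
    _ = (⌊F⌋₊ : ℝ) * B.card := by push_cast; ring
    _ ≤ _ := by
        have := Nat.floor_le h0
        gcongr

/-- Markov's inequality -/
lemma markov (s : Finset (ℕ × ℕ)) (f : ℕ × ℕ → ℝ) (hf : ∀ p, 0 ≤ f p) (L U : ℝ) (hL : 0 < L) (hU : ∑ p ∈ s, f p ≤ U) :
    ((s.filter (fun p => L < f p)).card : ℝ) ≤ U / L := by
  classical
  rw [le_div_iff₀ hL, ← nsmul_eq_mul, ← sum_const]
  calc ∑ p ∈ s.filter (fun p => L < f p), L ≤ ∑ p ∈ s.filter (fun p => L < f p), f p := by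
        apply sum_le_sum
        intro p hp
        exact (mem_filter.1 hp).2.le
    _ ≤ ∑ p ∈ s, f p := sum_le_sum_of_subset_of_nonneg (filter_subset _ _) fun p _ _ => hf p
    _ ≤ U := hU

/-- the size of the box -/
lemma box_size {n : ℕ} (hn : 1 ≤ n) : 1 ≤ Nat.sqrt (2 * n) ∧ (Nat.sqrt (2 * n) : ℝ) ≤ 2 * √(n : ℝ) ∧
    (Nat.sqrt (2 * n) : ℝ) + 1 ≤ 3 * √(n : ℝ) := by
  have h1 : 1 ≤ Nat.sqrt (2 * n) := by
    rw [Nat.le_sqrt]
    omega
  have h2 : (Nat.sqrt (2 * n) : ℝ) ≤ 2 * √(n : ℝ) := by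
    calc (Nat.sqrt (2 * n) : ℝ) ≤ √((2 * n : ℕ) : ℝ) := Real.nat_sqrt_le_real_sqrt
      _ ≤ √(2 ^ 2 * (n : ℝ)) := by
          apply Real.sqrt_le_sqrt
          push_cast
          linarith [(Nat.cast_nonneg n : (0 : ℝ) ≤ n)]
      _ = 2 * √(n : ℝ) := by
          rw [Real.sqrt_mul (by positivity), Real.sqrt_sq (by norm_num)]
  have h3 : 1 ≤ √(n : ℝ) := by
    rw [Real.one_le_sqrt]
    exact_mod_cast hn
  exact ⟨h1, h2, by linarith⟩

/-- first average for all `y` -/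
lemma bnd1 {n y : ℕ} (hn : 1 ≤ n) (hl : 1 ≤ Real.log n) (hy : 1 ≤ y) (hyn : y ≤ 2 * n) :
    ∑ p ∈ pairs (Nat.sqrt (2 * n)), ∑ M ∈ odds y with M ∣ nn p, ArithmeticFunction.vonMangoldt M ≤ 100 * (n * √(y : ℝ) * Real.log n) := by
  obtain ⟨hA1, hA, hA'⟩ := box_size hn
  set A := Nat.sqrt (2 * n) with hAdef
  have hn1 : (1 : ℝ) ≤ n := by exact_mod_cast hn
  have hy1 : (1 : ℝ) ≤ y := by exact_mod_cast hy
  set E := Nat.sqrt y with hE
  have hE1 : 1 ≤ E := by
    rw [hE, Nat.le_sqrt]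
    omega
  have hEr : (E : ℝ) ≤ √(y : ℝ) := Real.nat_sqrt_le_real_sqrt
  have hEr2 : √(y : ℝ) ≤ 2 * E := by
    have h1 : √(y : ℝ) ≤ E + 1 := Real.real_sqrt_le_nat_sqrt_succ
    have h2 : (1 : ℝ) ≤ E := by exact_mod_cast hE1
    linarith
  have hE0 : (0 : ℝ) < E := by exact_mod_cast hE1
  have hly : Real.log y ≤ 2 * Real.log n := by
    have h1 : (y : ℝ) ≤ (n : ℝ) ^ 2 := by
      have h2 : 2 ≤ n := by
        by_contra h
        have : n = 1 := by omega
        rw [this] at hl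
        simp at hl
        linarith
      have h3 : y ≤ n ^ 2 := by nlinarith
      exact_mod_cast h3
    calc Real.log y ≤ Real.log ((n : ℝ) ^ 2) := Real.log_le_log (by linarith) h1
      _ = 2 * Real.log n := by rw [Real.log_pow]; push_cast; ring
  set l := Real.log (n : ℝ) with hldef
  set s := √(y : ℝ) with hs
  have hs1 : 1 ≤ s := by rw [hs, Real.one_le_sqrt]; exact hy1
  have hss : s * s = y := Real.mul_self_sqrt (by linarith)
  set r := √(n : ℝ) with hr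
  have hr1 : 1 ≤ r := by rw [hr, Real.one_le_sqrt]; exact hn1
  have hrr : r * r = n := Real.mul_self_sqrt (by linarith)
  have hsr : s ≤ 2 * r := by
    rw [hs, hr]
    calc √(y : ℝ) ≤ √(2 ^ 2 * (n : ℝ)) := by
          apply Real.sqrt_le_sqrt
          have : (y : ℝ) ≤ 2 * n := by exact_mod_cast hyn
          linarith
      _ = 2 * √(n : ℝ) := by rw [Real.sqrt_mul (by positivity), Real.sqrt_sq (by norm_num)]
  set S : ℝ := 2 * (s * s * l) with hS
  refine (avg1 A y E hE1 S ?_).trans ?_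
  · rw [hS, hss]
    nlinarith
  · have k1 : S / E ≤ 4 * (s * l) := by
      rw [div_le_iff₀ hE0, hS]
      have : s * (s * l) ≤ 2 * E * (s * l) := by
        apply mul_le_mul_of_nonneg_right hEr2 (by positivity)
      linarith
    have k2 : (E : ℝ) + S / E ≤ 5 * (s * l) := by
      have : s ≤ s * l := by nlinarith
      linarith
    have k3 : A * (E + S / E) ≤ 10 * (r * (s * l)) := by
      calc (A : ℝ) * (E + S / E) ≤ (2 * r) * (5 * (s * l)) := by
            apply mul_le_mul hA k2 (by positivity) (by positivity)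
        _ = _ := by ring
    have k4 : S ≤ 4 * (r * (s * l)) := by
      rw [hS]
      have : s * (s * l) ≤ 2 * r * (s * l) := mul_le_mul_of_nonneg_right hsr (by positivity)
      linarith
    calc (A + 1) * (S + A * (E + S / E)) ≤ (3 * r) * (14 * (r * (s * l))) := by
          apply mul_le_mul hA' (by linarith) (by positivity) (by positivity)
      _ = 42 * ((r * r) * s * l) := by ring
      _ = 42 * (n * s * l) := by rw [hrr]
      _ ≤ _ := by
          have : 0 ≤ n * s * l := by positivity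
          linarith

/-- second average for all `y` -/
lemma bnd2 {n y : ℕ} (hn : 1 ≤ n) (hl : 1 ≤ Real.log n) (hy : 1 ≤ y) (hyn : (y : ℝ) ≤ 2 * (n : ℝ) ^ (3 / 4 : ℝ)) :
    ∑ p ∈ pairs (Nat.sqrt (2 * n)), ∑ q ∈ op y, ((nn p).factorization q : ℝ) * Real.log q ≤
      3000 * (n * (y : ℝ) ^ (2 / 3 : ℝ) * Real.log n) := by
  obtain ⟨hA1, hA, hA'⟩ := box_size hn
  set A := Nat.sqrt (2 * n) with hAdef
  have hn1 : (1 : ℝ) ≤ n := by exact_mod_cast hn
  have hy1 : (1 : ℝ) ≤ y := by exact_mod_cast hy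
  have hn2 : 2 ≤ n := by
    by_contra h
    have : n = 1 := by omega
    rw [this] at hl
    simp at hl
    linarith
  have hly : Real.log y ≤ 2 * Real.log n := by
    have h1 : (y : ℝ) ≤ (n : ℝ) ^ 2 := by
      have h3 : (n : ℝ) ^ (3 / 4 : ℝ) ≤ n := by
        calc (n : ℝ) ^ (3 / 4 : ℝ) ≤ (n : ℝ) ^ (1 : ℝ) := Real.rpow_le_rpow_of_exponent_le hn1 (by norm_num)
          _ = n := Real.rpow_one _
      have h4 : (2 : ℝ) ≤ n := by exact_mod_cast hn2
      nlinarith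
    calc Real.log y ≤ Real.log ((n : ℝ) ^ 2) := Real.log_le_log (by linarith) h1
      _ = 2 * Real.log n := by rw [Real.log_pow]; push_cast; ring
  set l := Real.log (n : ℝ) with hldef
  set t := (y : ℝ) ^ (1 / 3 : ℝ) with ht
  have ht1 : 1 ≤ t := Real.one_le_rpow hy1 (by norm_num)
  have ht3 : t * t * t = y := by
    rw [ht, ← Real.rpow_add (by linarith), ← Real.rpow_add (by linarith)]
    norm_num
  have ht2 : (y : ℝ) ^ (2 / 3 : ℝ) = t * t := by
    rw [ht, ← Real.rpow_add (by linarith)]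
    norm_num
  set r := √(n : ℝ) with hr
  have hr1 : 1 ≤ r := by rw [hr, Real.one_le_sqrt]; exact hn1
  have hrr : r * r = n := Real.mul_self_sqrt (by linarith)
  have htr : t * t ≤ 2 * r := by
    rw [← ht2, hr, Real.sqrt_eq_rpow]
    calc (y : ℝ) ^ (2 / 3 : ℝ) ≤ (2 * (n : ℝ) ^ (3 / 4 : ℝ)) ^ (2 / 3 : ℝ) := by gcongr
      _ = (2 : ℝ) ^ (2 / 3 : ℝ) * ((n : ℝ) ^ (3 / 4 : ℝ)) ^ (2 / 3 : ℝ) := Real.mul_rpow (by norm_num) (by positivity)
      _ = (2 : ℝ) ^ (2 / 3 : ℝ) * (n : ℝ) ^ (1 / 2 : ℝ) := by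
          rw [← Real.rpow_mul (by linarith)]
          norm_num
      _ ≤ (2 : ℝ) ^ (1 : ℝ) * (n : ℝ) ^ (1 / 2 : ℝ) := by
          apply mul_le_mul_of_nonneg_right _ (by positivity)
          exact Real.rpow_le_rpow_of_exponent_le (by norm_num) (by norm_num)
      _ = _ := by rw [Real.rpow_one]
  set R := ⌊t⌋₊ with hR
  have hR1 : 1 ≤ R := Nat.le_floor (by push_cast; linarith)
  have hRr : (R : ℝ) ≤ t := Nat.floor_le (by linarith)
  have hRr2 : t ≤ 2 * R := by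
    have h1 := (Nat.lt_floor_add_one t).le
    have h2 : (1 : ℝ) ≤ R := by exact_mod_cast hR1
    rw [← hR] at h1
    linarith
  have hR0 : (0 : ℝ) < R := by exact_mod_cast hR1
  have htt1 : 1 ≤ t * t := by nlinarith
  set E := ⌊t * t⌋₊ with hE
  have hE1 : 1 ≤ E := Nat.le_floor (by push_cast; linarith)
  have hEr : (E : ℝ) ≤ t * t := Nat.floor_le (by linarith)
  have hEr2 : t * t ≤ 2 * E := by
    have h1 := (Nat.lt_floor_add_one (t * t)).le
    have h2 : (1 : ℝ) ≤ E := by exact_mod_cast hE1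
    rw [← hE] at h1
    linarith
  have hE0 : (0 : ℝ) < E := by exact_mod_cast hE1
  have hl0 : 0 ≤ Real.log (y : ℝ) := Real.log_nonneg hy1
  have hyl : (y : ℝ) * Real.log y ≤ 2 * (t * t * t * l) := by
    rw [ht3]
    nlinarith
  have hyl0 : 0 ≤ (y : ℝ) * Real.log y := by positivity
  set S : ℝ := 2 * (t * t * (t * t) * l) with hS
  refine (avg2 A y R E hA1 hE1 hR1 S ?_).trans ?_
  · calc (R : ℝ) * (y * Real.log y) ≤ t * (2 * (t * t * t * l)) := mul_le_mul hRr hyl hyl0 (by linarith)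
      _ = S := by rw [hS]; ring
  · set w := t * t * l with hw
    have hw0 : 0 ≤ w := by positivity
    have k1 : S / E ≤ 4 * w := by
      rw [div_le_iff₀ hE0, hS, hw]
      have : t * t * (t * t * l) ≤ 2 * E * (t * t * l) := mul_le_mul_of_nonneg_right hEr2 (by positivity)
      linarith
    have k2 : (E : ℝ) + S / E ≤ 5 * w := by
      have : t * t ≤ w := by rw [hw]; nlinarith
      linarith
    have k3 : A * (E + S / E) ≤ 10 * (r * w) := by
      calc (A : ℝ) * (E + S / E) ≤ (2 * r) * (5 * w) := by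
            apply mul_le_mul hA k2 (by positivity) (by positivity)
        _ = _ := by ring
    have k4 : S ≤ 4 * (r * w) := by
      rw [hS, hw]
      have : t * t * (t * t * l) ≤ 2 * r * (t * t * l) := mul_le_mul_of_nonneg_right htr (by positivity)
      linarith
    have k5 : (A + 1) * (S + A * (E + S / E)) ≤ 42 * (n * w) := by
      calc (A + 1) * (S + A * (E + S / E)) ≤ (3 * r) * (14 * (r * w)) := by
            apply mul_le_mul hA' (by linarith) (by positivity) (by positivity)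
        _ = 42 * ((r * r) * w) := by ring
        _ = _ := by rw [hrr]
    have k6 : 72 * (A : ℝ) ^ 2 / R * (y * Real.log y) ≤ 1152 * (n * w) := by
      have g1 : 72 * (A : ℝ) ^ 2 / R * t ≤ 576 * n := by
        rw [div_mul_eq_mul_div, div_le_iff₀ hR0]
        calc 72 * (A : ℝ) ^ 2 * t ≤ 72 * (2 * r) ^ 2 * (2 * R) := by gcongr
          _ = 576 * (r * r) * R := by ring
          _ = 576 * n * R := by rw [hrr]
      calc 72 * (A : ℝ) ^ 2 / R * (y * Real.log y) ≤ 72 * (A : ℝ) ^ 2 / R * (2 * (t * t * t * l)) := by gcongr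
        _ = (72 * (A : ℝ) ^ 2 / R * t) * (2 * w) := by rw [hw]; ring
        _ ≤ (576 * n) * (2 * w) := by gcongr
        _ = _ := by ring
    have k7 : (n : ℝ) * (y : ℝ) ^ (2 / 3 : ℝ) * l = n * w := by rw [ht2, hw]; ring
    rw [k7]
    have : 0 ≤ n * w := by positivity
    linarith

end Pool.Agent.L5helper72.FQ
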