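import Mathlib
import Pool.Agent.L5helper72.FQ.Transfer

set_option autoImplicit false

/-! # The exceptional exponents -/

open Finset Filter Asymptotics
open scoped Topology

namespace Pool.Agent.L5helper72.FQ

open Pool.Agent.R494.SPL


/-- the divisor sum -/
noncomputable def FF (y : ℕ) (p : ℕ × ℕ) : ℝ := ∑ M ∈ odds y with M ∣ nn p, ArithmeticFunction.vonMangoldt M

/-- the smooth sum -/
noncomputable def GG (y : ℕ) (p : ℕ × ℕ) : ℝ := ∑ q ∈ op y, ((nn p).factorization q : ℝ) * Real.log q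

lemma FF_nonneg (y : ℕ) (p : ℕ × ℕ) : 0 ≤ FF y p := sum_nonneg fun M _ => Lam_nonneg M

lemma GG_nonneg (y : ℕ) (p : ℕ × ℕ) : 0 ≤ GG y p := by
  refine sum_nonneg fun q _ => ?_
  have := Real.log_natCast_nonneg q
  positivity

open Classical in
/-- first kind of exceptional pairs -/
noncomputable def Bad1 (n : ℕ) (L : ℝ) : Finset (ℕ × ℕ) :=
  (range (Nat.log 2 n + 2)).biUnion fun j =>
    (pairs (Nat.sqrt (2 * n))).filter (fun p => L * √((2 ^ j : ℕ) : ℝ) < FF (2 ^ j) p)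

open Classical in
/-- second kind of exceptional pairs -/
noncomputable def Bad2 (n : ℕ) (L : ℝ) : Finset (ℕ × ℕ) :=
  ((range (Nat.log 2 n + 2)).filter (fun j => ((2 ^ j : ℕ) : ℝ) ≤ 2 * (n : ℝ) ^ (3 / 4 : ℝ))).biUnion fun j =>
    (pairs (Nat.sqrt (2 * n))).filter (fun p => L * ((2 ^ j : ℕ) : ℝ) ^ (2 / 3 : ℝ) < GG (2 ^ j) p)

lemma pow_le_two_mul {n j : ℕ} (hn : 1 ≤ n) (hj : j ∈ range (Nat.log 2 n + 2)) : 2 ^ j ≤ 2 * n := by
  rw [mem_range] at hj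
  calc 2 ^ j ≤ 2 ^ (Nat.log 2 n + 1) := Nat.pow_le_pow_right (by norm_num) (by omega)
    _ = 2 * 2 ^ Nat.log 2 n := by ring
    _ ≤ 2 * n := by
        have := Nat.pow_log_le_self 2 (x := n) (by omega)
        omega

lemma Bad1_card {n : ℕ} (hn : 1 ≤ n) (hl : 1 ≤ Real.log n) {L : ℝ} (hL : 0 < L) :
    ((Bad1 n L).card : ℝ) ≤ (Nat.log 2 n + 2) * (3000 * (n * Real.log n) / L) := by
  classical
  unfold Bad1
  calc (((range (Nat.log 2 n + 2)).biUnion fun j =>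
          (pairs (Nat.sqrt (2 * n))).filter (fun p => L * √((2 ^ j : ℕ) : ℝ) < FF (2 ^ j) p)).card : ℝ)
      ≤ ∑ j ∈ range (Nat.log 2 n + 2),
          (((pairs (Nat.sqrt (2 * n))).filter (fun p => L * √((2 ^ j : ℕ) : ℝ) < FF (2 ^ j) p)).card : ℝ) := by
        exact_mod_cast card_biUnion_le
    _ ≤ ∑ j ∈ range (Nat.log 2 n + 2), 3000 * (n * Real.log n) / L := by
        apply sum_le_sum
        intro j hj
        have hs : 0 < √((2 ^ j : ℕ) : ℝ) := Real.sqrt_pos.2 (by positivity)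
        refine (markov _ (FF (2 ^ j)) (FF_nonneg _) _ _ (by positivity)
          (bnd1 hn hl Nat.one_le_two_pow (pow_le_two_mul hn hj))).trans ?_
        rw [div_le_div_iff₀ (by positivity) hL]
        have : 0 ≤ n * √((2 ^ j : ℕ) : ℝ) * Real.log n * L := by positivity
        nlinarith
    _ = _ := by
        rw [sum_const, card_range, nsmul_eq_mul]
        push_cast
        ring

lemma Bad2_card {n : ℕ} (hn : 1 ≤ n) (hl : 1 ≤ Real.log n) {L : ℝ} (hL : 0 < L) :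
    ((Bad2 n L).card : ℝ) ≤ (Nat.log 2 n + 2) * (3000 * (n * Real.log n) / L) := by
  classical
  unfold Bad2
  calc ((((range (Nat.log 2 n + 2)).filter (fun j => ((2 ^ j : ℕ) : ℝ) ≤ 2 * (n : ℝ) ^ (3 / 4 : ℝ))).biUnion fun j =>
          (pairs (Nat.sqrt (2 * n))).filter (fun p => L * ((2 ^ j : ℕ) : ℝ) ^ (2 / 3 : ℝ) < GG (2 ^ j) p)).card : ℝ)
      ≤ ∑ j ∈ (range (Nat.log 2 n + 2)).filter (fun j => ((2 ^ j : ℕ) : ℝ) ≤ 2 * (n : ℝ) ^ (3 / 4 : ℝ)),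
          (((pairs (Nat.sqrt (2 * n))).filter (fun p => L * ((2 ^ j : ℕ) : ℝ) ^ (2 / 3 : ℝ) < GG (2 ^ j) p)).card : ℝ) := by
        exact_mod_cast card_biUnion_le
    _ ≤ ∑ j ∈ (range (Nat.log 2 n + 2)).filter (fun j => ((2 ^ j : ℕ) : ℝ) ≤ 2 * (n : ℝ) ^ (3 / 4 : ℝ)),
          3000 * (n * Real.log n) / L := by
        apply sum_le_sum
        intro j hj
        rw [mem_filter] at hj
        have hs : 0 < ((2 ^ j : ℕ) : ℝ) ^ (2 / 3 : ℝ) := by positivity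
        refine (markov _ (GG (2 ^ j)) (GG_nonneg _) _ _ (by positivity)
          (bnd2 hn hl Nat.one_le_two_pow hj.2)).trans ?_
        rw [div_le_div_iff₀ (by positivity) hL]
        apply le_of_eq
        ring
    _ ≤ ∑ j ∈ range (Nat.log 2 n + 2), 3000 * (n * Real.log n) / L := by
        apply sum_le_sum_of_subset_of_nonneg (filter_subset _ _)
        intro j _ _
        positivity
    _ = _ := by
        rw [sum_const, card_range, nsmul_eq_mul]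
        push_cast
        ring

lemma dyadic {y : ℝ} (hy : 1 ≤ y) : ∃ j : ℕ, y ≤ ((2 ^ j : ℕ) : ℝ) ∧ ((2 ^ j : ℕ) : ℝ) ≤ 2 * y ∧
    ∀ n : ℕ, y ≤ n → j ∈ range (Nat.log 2 n + 2) := by
  have h1 : 1 ≤ ⌊y⌋₊ := Nat.le_floor (by push_cast; exact hy)
  refine ⟨Nat.log 2 ⌊y⌋₊ + 1, ?_, ?_, ?_⟩
  · have h2 : ⌊y⌋₊ < 2 ^ (Nat.log 2 ⌊y⌋₊ + 1) := Nat.lt_pow_succ_log_self (by norm_num) _
    have h3 : ((⌊y⌋₊ + 1 : ℕ) : ℝ) ≤ ((2 ^ (Nat.log 2 ⌊y⌋₊ + 1) : ℕ) : ℝ) := by exact_mod_cast h2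
    have h4 := (Nat.lt_floor_add_one y).le
    push_cast at h3 ⊢
    linarith
  · have h2 : 2 ^ (Nat.log 2 ⌊y⌋₊) ≤ ⌊y⌋₊ := Nat.pow_log_le_self 2 (by omega)
    have h3 : ((2 ^ (Nat.log 2 ⌊y⌋₊) : ℕ) : ℝ) ≤ (⌊y⌋₊ : ℝ) := by exact_mod_cast h2
    have h4 : (⌊y⌋₊ : ℝ) ≤ y := Nat.floor_le (by linarith)
    rw [pow_succ]
    push_cast at h3 ⊢
    linarith
  · intro n hn
    rw [mem_range]
    have h2 : ⌊y⌋₊ ≤ n := Nat.floor_le_of_le hn
    have := Nat.log_mono_right (b := 2) h2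
    omega

lemma not_bad1 {n : ℕ} {L : ℝ} (hL : 0 < L) {p : ℕ × ℕ} (hp : p ∈ pairs (Nat.sqrt (2 * n))) (hb : p ∉ Bad1 n L)
    {y : ℝ} (hy : 1 ≤ y) (hyn : y ≤ n) : Real.log (radSmooth y (nn p) : ℝ) ≤ 2 + 2 * (L * √y) := by
  classical
  obtain ⟨j, h1, h2, h3⟩ := dyadic hy
  have h4 := h3 n hyn
  unfold Bad1 at hb
  rw [mem_biUnion] at hb
  push Not at hb
  have h5 := hb j h4
  rw [mem_filter] at h5
  push Not at h5
  have h6 := h5 hp
  have h7 : Real.log (radSmooth y (nn p) : ℝ) ≤ Real.log (radSmooth ((2 ^ j : ℕ) : ℝ) (nn p) : ℝ) := by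
    apply Real.log_le_log
    · exact_mod_cast radSmooth_pos y (nn p)
    · exact_mod_cast radSmooth_mono h1 (nn p)
  have h8 := log_radSmooth_le ((2 ^ j : ℕ) : ℝ) p
  rw [Nat.floor_natCast] at h8
  change _ ≤ 2 + FF (2 ^ j) p at h8
  have h9 : √((2 ^ j : ℕ) : ℝ) ≤ 2 * √y := by
    calc √((2 ^ j : ℕ) : ℝ) ≤ √(2 ^ 2 * y) := Real.sqrt_le_sqrt (by linarith)
      _ = 2 * √y := by rw [Real.sqrt_mul (by positivity), Real.sqrt_sq (by norm_num)]
  have h10 : L * √((2 ^ j : ℕ) : ℝ) ≤ L * (2 * √y) := by gcongr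
  linarith

lemma not_bad2 {n : ℕ} (hn : 1 ≤ n) {L : ℝ} (hL : 0 < L) {p : ℕ × ℕ} (hp : p ∈ pairs (Nat.sqrt (2 * n))) (hb : p ∉ Bad2 n L)
    {y : ℝ} (hy : 1 ≤ y) (hyn : y ≤ (n : ℝ) ^ (3 / 4 : ℝ)) :
    Real.log (smooth y (nn p) : ℝ) ≤ 2 + 2 * (L * y ^ (2 / 3 : ℝ)) := by
  classical
  have hn1 : (1 : ℝ) ≤ n := by exact_mod_cast hn
  obtain ⟨j, h1, h2, h3⟩ := dyadic hy
  have h4 := h3 n (hyn.trans (by
    calc (n : ℝ) ^ (3 / 4 : ℝ) ≤ (n : ℝ) ^ (1 : ℝ) := Real.rpow_le_rpow_of_exponent_le hn1 (by norm_num)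
      _ = n := Real.rpow_one _))
  unfold Bad2 at hb
  rw [mem_biUnion] at hb
  push Not at hb
  have h5 := hb j (mem_filter.2 ⟨h4, by linarith⟩)
  rw [mem_filter] at h5
  push Not at h5
  have h6 := h5 hp
  have h7 : Real.log (smooth y (nn p) : ℝ) ≤ Real.log (smooth ((2 ^ j : ℕ) : ℝ) (nn p) : ℝ) := by
    apply Real.log_le_log
    · exact_mod_cast smooth_pos y (nn p)
    · exact_mod_cast smooth_mono h1 (nn p)
  have h8 := log_smooth_le ((2 ^ j : ℕ) : ℝ) p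
  rw [Nat.floor_natCast] at h8
  change _ ≤ 2 + GG (2 ^ j) p at h8
  have h9 : ((2 ^ j : ℕ) : ℝ) ^ (2 / 3 : ℝ) ≤ 2 * y ^ (2 / 3 : ℝ) := by
    calc ((2 ^ j : ℕ) : ℝ) ^ (2 / 3 : ℝ) ≤ (2 * y) ^ (2 / 3 : ℝ) := by gcongr
      _ = (2 : ℝ) ^ (2 / 3 : ℝ) * y ^ (2 / 3 : ℝ) := Real.mul_rpow (by norm_num) (by positivity)
      _ ≤ (2 : ℝ) ^ (1 : ℝ) * y ^ (2 / 3 : ℝ) := by
          apply mul_le_mul_of_nonneg_right _ (by positivity)
          exact Real.rpow_le_rpow_of_exponent_le (by norm_num) (by norm_num)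
      _ = _ := by rw [Real.rpow_one]
  have h10 : L * ((2 ^ j : ℕ) : ℝ) ^ (2 / 3 : ℝ) ≤ L * (2 * y ^ (2 / 3 : ℝ)) := by gcongr
  linarith

lemma smooth_le {m : ℕ} (hm : m ≠ 0) (y : ℝ) : smooth y m ≤ m := by
  calc smooth y m ≤ smooth (max y m) m := smooth_mono (le_max_left _ _) m
    _ = m := by
        apply smooth_all hm
        intro q _ hq
        refine le_trans ?_ (le_max_right _ _)
        exact_mod_cast Nat.le_of_dvd (Nat.pos_of_ne_zero hm) hq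

lemma radSmooth_le_smooth {m : ℕ} (hm : m ≠ 0) (y : ℝ) : radSmooth y m ≤ smooth y m := by
  unfold radSmooth smooth
  apply prod_le_prod' 
  intro p hp
  rw [mem_filter] at hp
  have h1 := (Nat.prime_of_mem_primeFactors hp.1)
  have h2 := h1.factorization_pos_of_dvd hm (Nat.dvd_of_mem_primeFactors hp.1)
  exact Nat.le_self_pow (by omega) p

/-- lower bound for the logarithm -/
lemma log_low {n : ℕ} {v : ℕ × ℕ × ℕ × ℕ} (hv : v ∈ quad n) : √(n : ℝ) / 3 ≤ Real.log (val2 v : ℝ) := by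
  have hl2 := Real.log_two_gt_d9
  have key : ∀ {a b : ℕ}, n ≤ a ^ 2 + b ^ 2 → b ≤ a → 2 ^ a ≤ val2 v → √(n : ℝ) / 3 ≤ Real.log (val2 v : ℝ) := by
    intro a b h1 h2 h3
    have h4 : (n : ℝ) ≤ 2 * (a : ℝ) ^ 2 := by
      have : n ≤ 2 * a ^ 2 := by
        have := Nat.pow_le_pow_left h2 2
        omega
      exact_mod_cast this
    have h5 : √(n : ℝ) ≤ 3 / 2 * a := by
      rw [Real.sqrt_le_left (by positivity)]
      nlinarith [sq_nonneg (a : ℝ)]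
    calc √(n : ℝ) / 3 ≤ a * Real.log 2 := by
          have : (0 : ℝ) ≤ a := by positivity
          nlinarith
      _ = Real.log ((2 : ℝ) ^ a) := by rw [Real.log_pow]
      _ ≤ _ := by
          apply Real.log_le_log (by positivity)
          exact_mod_cast h3
  rw [mem_quad] at hv
  have h0 : n ≤ (v.1 + v.2.1) ^ 2 + (v.2.2.1 + v.2.2.2) ^ 2 := by
    have e : (v.1 + v.2.1) ^ 2 + (v.2.2.1 + v.2.2.2) ^ 2 =
        (v.1 ^ 2 + v.2.1 ^ 2 + v.2.2.1 ^ 2 + v.2.2.2 ^ 2) + (2 * (v.1 * v.2.1) + 2 * (v.2.2.1 * v.2.2.2)) := by ring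
    rw [e, ← hv]
    omega
  rcases le_total (v.2.2.1 + v.2.2.2) (v.1 + v.2.1) with h | h
  · exact key h0 h (by
      unfold val2
      have := Nat.zero_le (2 ^ (v.2.2.1 + v.2.2.2))
      linarith)
  · exact key (by omega) h (by
      unfold val2
      have := Nat.zero_le (2 ^ (v.1 + v.2.1))
      linarith)

end Pool.Agent.L5helper72.FQ
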