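import Mathlib
import Pool.Agent.L5helper72.FQ.Bad
import Pool.Agent.R154.FT.Main3

set_option autoImplicit false

/-! # The main theorem -/

open Finset Filter Asymptotics
open scoped Topology

namespace Pool.Agent.L5helper72.FQ

open Pool.Agent.R494.SPL

/-- the prime factors of `N` behave well with respect to `n` -/
def Good (ε : ℝ) (n N : ℕ) : Prop :=
  (∀ y : ℝ, 1 ≤ y → (radSmooth y N : ℝ) ≤ Real.exp ((n : ℝ) ^ ε * y ^ (1 / 2 : ℝ)) ∧
    (smooth y N : ℝ) ≤ Real.exp ((n : ℝ) ^ ε * y ^ (2 / 3 : ℝ))) ∧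
  (∃ q : ℕ, q.Prime ∧ q ∣ N ∧ (n : ℝ) ^ (3 / 4 - ε) < q) ∧
  (Squarefree N → ∃ q : ℕ, q.Prime ∧ q ∣ N ∧ (n : ℝ) ^ (1 - ε) < q) ∧
  (N.primeFactors.card : ℝ) ≤ (1 + ε) * (Real.log N / Real.log n) ∧
  (N.primeFactorsList.length : ℝ) ≤ (4 / 3 + ε) * (Real.log N / Real.log n)

/-- if all prime factors of a squarefree number are at most `y` -/
lemma radSmooth_all {m : ℕ} (hsq : Squarefree m) {y : ℝ} (h : ∀ q : ℕ, q.Prime → q ∣ m → (q : ℝ) ≤ y) :
    radSmooth y m = m := by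
  unfold radSmooth
  rw [filter_true_of_mem (fun q hq => h q (Nat.prime_of_mem_primeFactors hq) (Nat.dvd_of_mem_primeFactors hq))]
  exact Nat.prod_primeFactors_of_squarefree hsq

/-- all eventual inequalities -/
lemma evs (ε ε0 ε1 ε2 : ℝ) (hε : 0 < ε) (h0 : ε0 = min ε 1) (h1 : ε1 = ε0 / 32) (h2 : ε2 = ε0 / 8) :
    ∀ᶠ n : ℕ in atTop, 3 ≤ n ∧ 1 ≤ Real.log n ∧ 6 * (n : ℝ) ^ ε1 ≤ (n : ℝ) ^ ε ∧
      (2 + 2 * (n : ℝ) ^ (1 / 2 - ε2 / 4)) * Real.log n ≤ ε0 / 12 * √(n : ℝ) ∧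
      2 * ((Nat.log 2 n + 2) * (3000 * (n * Real.log n) / (n : ℝ) ^ ε1)) ≤ (n : ℝ) ^ (1 - ε1 / 2) ∧
      2 * (n : ℝ) ^ (1 - 3 * ε1 / 8) ≤ (n : ℝ) ^ (1 - ε1 / 4) ∧ 2 ≤ (n : ℝ) ^ (ε1 / 8) := by
  have p0 : 0 < ε0 := by rw [h0]; exact lt_min hε one_pos
  have p1 : 0 < ε1 := by rw [h1]; positivity
  have p2 : 0 < ε2 := by rw [h2]; positivity
  have q0 : ε0 ≤ ε := by rw [h0]; exact min_le_left _ _
  have q1 : ε0 ≤ 1 := by rw [h0]; exact min_le_right _ _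
  have r1 : ∀ᶠ n : ℕ in atTop, 6 ≤ (n : ℝ) ^ (ε - ε1) :=
    ((tendsto_rpow_atTop (by rw [h1]; linarith)).comp tendsto_natCast_atTop_atTop).eventually_ge_atTop _
  have r2 : ∀ᶠ n : ℕ in atTop, (1 : ℝ) ≤ Real.log n :=
    (Real.tendsto_log_atTop.comp tendsto_natCast_atTop_atTop).eventually_ge_atTop _
  have r3 := tendsto_natCast_atTop_atTop.eventually ((isLittleO_log_rpow_atTop (show (0 : ℝ) < ε2 / 4 by positivity)).bound
    (show (0 : ℝ) < ε0 / 48 by positivity))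
  have r4 := tendsto_natCast_atTop_atTop.eventually ((isLittleO_log_rpow_atTop (show (0 : ℝ) < ε1 / 4 by positivity)).bound
    (show (0 : ℝ) < 1 / 1000 by positivity))
  have r5 : ∀ᶠ n : ℕ in atTop, 2 ≤ (n : ℝ) ^ (ε1 / 8) :=
    ((tendsto_rpow_atTop (by positivity)).comp tendsto_natCast_atTop_atTop).eventually_ge_atTop _
  filter_upwards [r1, r2, r3, r4, r5, eventually_ge_atTop 3] with n s1 s2 s3 s4 s5 s6
  have hn1 : (1 : ℝ) ≤ n := by exact_mod_cast (by omega : 1 ≤ n)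
  have hn0 : (0 : ℝ) < n := by linarith
  rw [Real.norm_eq_abs, Real.norm_eq_abs, abs_of_nonneg (by linarith), abs_of_nonneg (Real.rpow_nonneg hn0.le _)] at s3 s4
  set x := (n : ℝ) with hx
  have hbig : 1 ≤ x ^ (1 / 2 - ε2 / 4) := Real.one_le_rpow hn1 (by rw [h2]; linarith)
  refine ⟨s6, s2, ?_, ?_, ?_, ?_, s5⟩
  · calc 6 * x ^ ε1 ≤ x ^ (ε - ε1) * x ^ ε1 := by gcongr
      _ = x ^ ε := by
          rw [← Real.rpow_add hn0]
          congr 1
          ring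
  · calc (2 + 2 * x ^ (1 / 2 - ε2 / 4)) * Real.log x ≤ (4 * x ^ (1 / 2 - ε2 / 4)) * (ε0 / 48 * x ^ (ε2 / 4)) := by
          apply mul_le_mul (by linarith) s3 (by linarith) (by positivity)
      _ = ε0 / 12 * (x ^ (1 / 2 - ε2 / 4) * x ^ (ε2 / 4)) := by ring
      _ = ε0 / 12 * √x := by
          rw [← Real.rpow_add hn0, Real.sqrt_eq_rpow]
          congr 2
          ring
  · have hlog : (Nat.log 2 n : ℝ) + 2 ≤ 4 * Real.log x := by
      have g1 : (Nat.log 2 n : ℝ) * Real.log 2 ≤ Real.log x := by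
        have g2 : ((2 ^ Nat.log 2 n : ℕ) : ℝ) ≤ x := by
          rw [hx]
          exact_mod_cast Nat.pow_log_le_self 2 (x := n) (by omega)
        calc (Nat.log 2 n : ℝ) * Real.log 2 = Real.log ((2 ^ Nat.log 2 n : ℕ) : ℝ) := by
              push_cast
              rw [Real.log_pow]
          _ ≤ _ := Real.log_le_log (by positivity) g2
      have g3 := Real.log_two_gt_d9
      have g4 : (0 : ℝ) ≤ Nat.log 2 n := by positivity
      nlinarith
    have hxe : 0 < x ^ ε1 := by positivity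
    have hsplit : x ^ (1 - ε1 / 2) = x * x ^ (ε1 / 4) * x ^ (ε1 / 4) / x ^ ε1 := by
      rw [eq_div_iff hxe.ne', ← Real.rpow_add hn0]
      nth_rewrite 2 [← Real.rpow_one x]
      rw [← Real.rpow_add hn0, ← Real.rpow_add hn0]
      congr 1
      ring
    rw [hsplit]
    have hA : 24000 * (Real.log x * Real.log x) ≤ x ^ (ε1 / 4) * x ^ (ε1 / 4) := by
      have hl0 : 0 ≤ Real.log x := by linarith
      have g5 : Real.log x * Real.log x ≤ (1 / 1000 * x ^ (ε1 / 4)) * (1 / 1000 * x ^ (ε1 / 4)) :=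
        mul_le_mul s4 s4 hl0 (by positivity)
      have g6 : 0 ≤ x ^ (ε1 / 4) * x ^ (ε1 / 4) := by positivity
      nlinarith
    calc 2 * ((Nat.log 2 n + 2) * (3000 * (x * Real.log x) / x ^ ε1))
        ≤ 2 * (4 * Real.log x * (3000 * (x * Real.log x) / x ^ ε1)) := by gcongr
      _ = x * (24000 * (Real.log x * Real.log x)) / x ^ ε1 := by ring
      _ ≤ x * (x ^ (ε1 / 4) * x ^ (ε1 / 4)) / x ^ ε1 := by gcongr
      _ = _ := by ring
  · calc 2 * x ^ (1 - 3 * ε1 / 8) ≤ x ^ (ε1 / 8) * x ^ (1 - 3 * ε1 / 8) := by gcongr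
      _ = _ := by
          rw [← Real.rpow_add hn0]
          congr 1
          ring

/-- quadruples with exponents that are not exceptional are good -/
lemma good_of (ε ε0 ε1 ε2 : ℝ) (hε : 0 < ε) (h0 : ε0 = min ε 1) (h1 : ε1 = ε0 / 32) (h2 : ε2 = ε0 / 8)
    {n : ℕ} (hn3 : 3 ≤ n) (hl : 1 ≤ Real.log n) (e1 : 6 * (n : ℝ) ^ ε1 ≤ (n : ℝ) ^ ε)
    (e2 : (2 + 2 * (n : ℝ) ^ (1 / 2 - ε2 / 4)) * Real.log n ≤ ε0 / 12 * √(n : ℝ))
    {v : ℕ × ℕ × ℕ × ℕ} (hv : v ∈ quad n) (hb1 : ex v ∉ Bad1 n ((n : ℝ) ^ ε1)) (hb2 : ex v ∉ Bad2 n ((n : ℝ) ^ ε1)) :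
    Good ε n (val2 v) := by
  have p0 : 0 < ε0 := by rw [h0]; exact lt_min hε one_pos
  have q0 : ε0 ≤ ε := by rw [h0]; exact min_le_left _ _
  have q1 : ε0 ≤ 1 := by rw [h0]; exact min_le_right _ _
  have hn1 : (1 : ℝ) ≤ n := by exact_mod_cast (by omega : 1 ≤ n)
  have hn0 : (0 : ℝ) < n := by linarith
  obtain ⟨l0, lup⟩ := log_val2 (by omega) hv
  have llow := log_low hv
  have hm : val2 v ≠ 0 := Nat.succ_ne_zero _
  have hL0 : 0 < (n : ℝ) ^ ε1 := by positivity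
  have hL1 : 1 ≤ (n : ℝ) ^ ε1 := Real.one_le_rpow hn1 (by rw [h1]; positivity)
  have hp := ex_mem hv
  have B1 : ∀ y : ℝ, 1 ≤ y → y ≤ n → Real.log (radSmooth y (val2 v) : ℝ) ≤ 2 + 2 * ((n : ℝ) ^ ε1 * √y) :=
    fun y hy hyn => not_bad1 hL0 hp hb1 hy hyn
  have B2 : ∀ y : ℝ, 1 ≤ y → y ≤ (n : ℝ) ^ (3 / 4 : ℝ) →
      Real.log (smooth y (val2 v) : ℝ) ≤ 2 + 2 * ((n : ℝ) ^ ε1 * y ^ (2 / 3 : ℝ)) :=
    fun y hy hyn => not_bad2 (by omega) hL0 hp hb2 hy hyn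
  set N := val2 v with hN
  set x := (n : ℝ) with hx
  have hNr : (0 : ℝ) < N := by exact_mod_cast Nat.pos_of_ne_zero hm
  have hsqrt : √x = x ^ (1 / 2 : ℝ) := Real.sqrt_eq_rpow x
  -- the values at the two special points
  have hy1 : 1 ≤ x ^ (1 - ε2) := Real.one_le_rpow hn1 (by rw [h2]; linarith)
  have hy2 : 1 ≤ x ^ (3 / 4 - ε2) := Real.one_le_rpow hn1 (by rw [h2]; linarith)
  have C1 : Real.log (radSmooth (x ^ (1 - ε2)) N : ℝ) ≤ 2 + 2 * x ^ (1 / 2 - ε2 / 4) := by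
    have hle : x ^ (1 - ε2) ≤ x := by
      calc x ^ (1 - ε2) ≤ x ^ (1 : ℝ) := Real.rpow_le_rpow_of_exponent_le hn1 (by rw [h2]; linarith)
        _ = x := Real.rpow_one _
    refine (B1 _ hy1 hle).trans ?_
    have : x ^ ε1 * √(x ^ (1 - ε2)) = x ^ (1 / 2 - ε2 / 4) := by
      rw [Real.sqrt_eq_rpow, ← Real.rpow_mul hn0.le, ← Real.rpow_add hn0]
      congr 1
      rw [h1, h2]
      ring
    rw [this]
  have C2 : Real.log (smooth (x ^ (3 / 4 - ε2)) N : ℝ) ≤ 2 + 2 * x ^ (1 / 2 - ε2 / 4) := by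
    have hle : x ^ (3 / 4 - ε2) ≤ x ^ (3 / 4 : ℝ) :=
      Real.rpow_le_rpow_of_exponent_le hn1 (by rw [h2]; linarith)
    refine (B2 _ hy2 hle).trans ?_
    have : x ^ ε1 * (x ^ (3 / 4 - ε2)) ^ (2 / 3 : ℝ) ≤ x ^ (1 / 2 - ε2 / 4) := by
      rw [← Real.rpow_mul hn0.le, ← Real.rpow_add hn0]
      apply Real.rpow_le_rpow_of_exponent_le hn1
      rw [h1, h2]
      linarith
    linarith
  have hlog0 : 0 < Real.log x := by linarith
  -- the error term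
  have D : (2 + 2 * x ^ (1 / 2 - ε2 / 4)) / Real.log 2 ≤ ε0 / 2 * (Real.log N / Real.log x) := by
    have hl2 := Real.log_two_gt_d9
    have g1 : (2 + 2 * x ^ (1 / 2 - ε2 / 4)) / Real.log 2 ≤ 2 * (2 + 2 * x ^ (1 / 2 - ε2 / 4)) := by
      rw [div_le_iff₀ (by linarith)]
      have : 0 ≤ 2 + 2 * x ^ (1 / 2 - ε2 / 4) := by positivity
      nlinarith
    have g2 : 2 * (2 + 2 * x ^ (1 / 2 - ε2 / 4)) ≤ ε0 / 2 * (√x / 3 / Real.log x) := by
      rw [← mul_div_assoc, le_div_iff₀ hlog0]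
      linarith
    have g3 : ε0 / 2 * (√x / 3 / Real.log x) ≤ ε0 / 2 * (Real.log N / Real.log x) := by gcongr
    linarith
  have hdivpos : 0 ≤ Real.log N / Real.log x := by positivity
  refine ⟨?_, ?_, ?_, ?_, ?_⟩
  · intro y hy
    have hxh : 1 ≤ x ^ ε := by linarith
    have hra : (0 : ℝ) < (radSmooth y N : ℝ) := by exact_mod_cast radSmooth_pos y N
    have hsm : (0 : ℝ) < (smooth y N : ℝ) := by exact_mod_cast smooth_pos y N
    have hsN : (smooth y N : ℝ) ≤ N := by exact_mod_cast smooth_le hm y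
    have hrN : (radSmooth y N : ℝ) ≤ N := by exact_mod_cast (radSmooth_le_smooth hm y).trans (smooth_le hm y)
    have h4 : 4 ≤ x ^ ε := by linarith
    constructor
    · rw [← Real.log_le_iff_le_exp hra]
      have hyh : 1 ≤ y ^ (1 / 2 : ℝ) := Real.one_le_rpow hy (by norm_num)
      rcases le_or_gt y x with hyx | hyx
      · have g := B1 y hy hyx
        rw [Real.sqrt_eq_rpow] at g
        have g2 : 2 + 2 * (x ^ ε1 * y ^ (1 / 2 : ℝ)) ≤ 4 * (x ^ ε1 * y ^ (1 / 2 : ℝ)) := by nlinarith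
        have g3 : 4 * (x ^ ε1 * y ^ (1 / 2 : ℝ)) ≤ x ^ ε * y ^ (1 / 2 : ℝ) := by
          rw [← mul_assoc]
          apply mul_le_mul_of_nonneg_right _ (by positivity)
          linarith
        linarith
      · have g : Real.log (radSmooth y N : ℝ) ≤ Real.log N := Real.log_le_log hra hrN
        have g2 : x ^ (1 / 2 : ℝ) ≤ y ^ (1 / 2 : ℝ) := Real.rpow_le_rpow hn0.le hyx.le (by norm_num)
        have g3 : 4 * y ^ (1 / 2 : ℝ) ≤ x ^ ε * y ^ (1 / 2 : ℝ) := by gcongr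
        linarith
    · rw [← Real.log_le_iff_le_exp hsm]
      have hyh : 1 ≤ y ^ (2 / 3 : ℝ) := Real.one_le_rpow hy (by norm_num)
      rcases le_or_gt y (x ^ (3 / 4 : ℝ)) with hyx | hyx
      · have g := B2 y hy hyx
        have g2 : 2 + 2 * (x ^ ε1 * y ^ (2 / 3 : ℝ)) ≤ 4 * (x ^ ε1 * y ^ (2 / 3 : ℝ)) := by nlinarith
        have g3 : 4 * (x ^ ε1 * y ^ (2 / 3 : ℝ)) ≤ x ^ ε * y ^ (2 / 3 : ℝ) := by
          rw [← mul_assoc]
          apply mul_le_mul_of_nonneg_right _ (by positivity)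
          linarith
        linarith
      · have g : Real.log (smooth y N : ℝ) ≤ Real.log N := Real.log_le_log hsm hsN
        have g2 : x ^ (1 / 2 : ℝ) ≤ y ^ (2 / 3 : ℝ) := by
          calc x ^ (1 / 2 : ℝ) = (x ^ (3 / 4 : ℝ)) ^ (2 / 3 : ℝ) := by
                rw [← Real.rpow_mul hn0.le]
                norm_num
            _ ≤ y ^ (2 / 3 : ℝ) := Real.rpow_le_rpow (by positivity) hyx.le (by norm_num)
        have g3 : 4 * y ^ (2 / 3 : ℝ) ≤ x ^ ε * y ^ (2 / 3 : ℝ) := by gcongr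
        linarith
  · by_contra hc
    push Not at hc
    have g1 : smooth (x ^ (3 / 4 - ε2)) N = N := by
      apply smooth_all hm
      intro q hq hqN
      refine (hc q hq hqN).trans ?_
      apply Real.rpow_le_rpow_of_exponent_le hn1
      rw [h2]
      linarith
    rw [g1] at C2
    have g2 : (2 + 2 * x ^ (1 / 2 - ε2 / 4)) * 1 ≤ (2 + 2 * x ^ (1 / 2 - ε2 / 4)) * Real.log x := by gcongr
    have g3 : 0 < √x := Real.sqrt_pos.2 hn0
    nlinarith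
  · intro hsq
    by_contra hc
    push Not at hc
    have g1 : radSmooth (x ^ (1 - ε2)) N = N := by
      apply radSmooth_all hsq
      intro q hq hqN
      refine (hc q hq hqN).trans ?_
      apply Real.rpow_le_rpow_of_exponent_le hn1
      rw [h2]
      linarith
    rw [g1] at C1
    have g2 : (2 + 2 * x ^ (1 / 2 - ε2 / 4)) * 1 ≤ (2 + 2 * x ^ (1 / 2 - ε2 / 4)) * Real.log x := by gcongr
    have g3 : 0 < √x := Real.sqrt_pos.2 hn0
    nlinarith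
  · have g1 := omega_le hm (y := x ^ (1 - ε2)) (by
      apply Real.one_lt_rpow _ (by rw [h2]; linarith)
      have : (3 : ℝ) ≤ x := by rw [hx]; exact_mod_cast hn3
      linarith)
    have g2 : Real.log (radSmooth (x ^ (1 - ε2)) N : ℝ) / Real.log 2 ≤ (2 + 2 * x ^ (1 / 2 - ε2 / 4)) / Real.log 2 := by
      have := Real.log_pos (show (1 : ℝ) < 2 by norm_num)
      gcongr
    have g3 : Real.log N / Real.log (x ^ (1 - ε2)) ≤ (1 + ε0 / 2) * (Real.log N / Real.log x) := by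
      rw [Real.log_rpow hn0]
      have hpos : 0 < 1 - ε2 := by rw [h2]; linarith
      rw [show Real.log N / ((1 - ε2) * Real.log x) = (1 / (1 - ε2)) * (Real.log N / Real.log x) by field_simp]
      apply mul_le_mul_of_nonneg_right _ hdivpos
      rw [div_le_iff₀ hpos, h2]
      nlinarith
    have g4 : (1 + ε0) * (Real.log N / Real.log x) ≤ (1 + ε) * (Real.log N / Real.log x) := by gcongr
    linarith
  · have g1 := Omega_le hm (y := x ^ (3 / 4 - ε2)) (by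
      apply Real.one_lt_rpow _ (by rw [h2]; linarith)
      have : (3 : ℝ) ≤ x := by rw [hx]; exact_mod_cast hn3
      linarith)
    have g2 : Real.log (smooth (x ^ (3 / 4 - ε2)) N : ℝ) / Real.log 2 ≤ (2 + 2 * x ^ (1 / 2 - ε2 / 4)) / Real.log 2 := by
      have := Real.log_pos (show (1 : ℝ) < 2 by norm_num)
      gcongr
    have g3 : Real.log N / Real.log (x ^ (3 / 4 - ε2)) ≤ (4 / 3 + ε0 / 2) * (Real.log N / Real.log x) := by
      rw [Real.log_rpow hn0]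
      have hpos : 0 < 3 / 4 - ε2 := by rw [h2]; linarith
      rw [show Real.log N / ((3 / 4 - ε2) * Real.log x) = (1 / (3 / 4 - ε2)) * (Real.log N / Real.log x) by field_simp]
      apply mul_le_mul_of_nonneg_right _ hdivpos
      rw [div_le_iff₀ hpos, h2]
      nlinarith
    have g4 : (4 / 3 + ε0) * (Real.log N / Real.log x) ≤ (4 / 3 + ε) * (Real.log N / Real.log x) := by gcongr
    linarith

/-- the main theorem -/
theorem main (ε : ℝ) (hε : 0 < ε) : ∃ η : ℝ, 0 < η ∧ ∃ c : ℝ, 0 < c ∧ ∃ n0 : ℕ, ∀ n : ℕ, n0 ≤ n → Odd n →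
    ({v : ℕ × ℕ × ℕ × ℕ | v ∈ quad n ∧ ¬ Good ε n (val2 v)}.ncard : ℝ) ≤ (n : ℝ) ^ (-η) * ((quad n).card : ℝ) ∧
    (n : ℝ) ^ (1 - ε) ≤ ({v : ℕ × ℕ × ℕ × ℕ | v ∈ quad n ∧ Good ε n (val2 v) ∧
      ∀ q : ℕ, q.Prime → q ∣ val2 v → c * Real.log n ^ 2 < q}.ncard : ℝ) := by
  classical
  set ε0 := min ε 1 with h0
  set ε1 := ε0 / 32 with h1
  set ε2 := ε0 / 8 with h2
  have p0 : 0 < ε0 := lt_min hε one_pos
  have q0 : ε0 ≤ ε := min_le_left _ _
  have q1 : ε0 ≤ 1 := min_le_right _ _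
  have p1 : 0 < ε1 := by positivity
  obtain ⟨c, hc, n1, hmain⟩ := Pool.Agent.R154.FT.main3 (ε1 / 8) (by positivity)
  have hev := (evs ε ε0 ε1 ε2 hε h0 h1 h2).and ((few (ε1 / 8) (by positivity)).and (eventually_ge_atTop n1))
  obtain ⟨n0, hn0⟩ := eventually_atTop.1 hev
  refine ⟨ε1 / 8, by positivity, c, hc, n0, ?_⟩
  intro n hn hodd
  obtain ⟨⟨hn3, hl, e1, e2, e3, e4, e5⟩, hfew, hnn1⟩ := hn0 n hn
  obtain ⟨S, hS1, hS2⟩ := hmain n hnn1 hodd
  have hn1 : (1 : ℝ) ≤ n := by exact_mod_cast (by omega : 1 ≤ n)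
  have hnpos : (0 : ℝ) < n := by linarith
  have hL0 : 0 < (n : ℝ) ^ ε1 := by positivity
  set B := Bad1 n ((n : ℝ) ^ ε1) ∪ Bad2 n ((n : ℝ) ^ ε1) with hB
  have hBc : (B.card : ℝ) ≤ (n : ℝ) ^ (1 - ε1 / 2) := by
    have g1 := Bad1_card (n := n) (by omega) hl hL0
    have g2 := Bad2_card (n := n) (by omega) hl hL0
    have g3 : (B.card : ℝ) ≤ ((Bad1 n ((n : ℝ) ^ ε1)).card : ℝ) + ((Bad2 n ((n : ℝ) ^ ε1)).card : ℝ) := by
      exact_mod_cast card_union_le _ _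
    linarith
  set BQ := (quad n).filter (fun v => ex v ∈ B) with hBQ
  have hBQc : (BQ.card : ℝ) ≤ (n : ℝ) ^ (1 - 3 * ε1 / 8) := by
    refine (bad_quads n _ hfew B).trans ?_
    calc (n : ℝ) ^ (ε1 / 8) * (B.card : ℝ) ≤ (n : ℝ) ^ (ε1 / 8) * (n : ℝ) ^ (1 - ε1 / 2) := by gcongr
      _ = _ := by
          rw [← Real.rpow_add hnpos]
          congr 1
          ring
  have hgood : ∀ v ∈ quad n, v ∉ BQ → Good ε n (val2 v) := by
    intro v hv hvB
    have hvB' : ex v ∉ B := fun h => hvB (mem_filter.2 ⟨hv, h⟩)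
    rw [hB, mem_union] at hvB'
    push Not at hvB'
    exact good_of ε ε0 ε1 ε2 hε h0 h1 h2 hn3 hl e1 e2 hv hvB'.1 hvB'.2
  have hSq : S ⊆ quad n := by
    rintro ⟨x, y, z, w⟩ hX
    exact mem_quad.2 (hS2 x y z w hX).1
  have hqc : (n : ℝ) ^ (1 - ε1 / 8) ≤ ((quad n).card : ℝ) := by
    refine hS1.trans ?_
    exact_mod_cast card_le_card hSq
  constructor
  · have g1 : ({v : ℕ × ℕ × ℕ × ℕ | v ∈ quad n ∧ ¬ Good ε n (val2 v)}.ncard : ℝ) ≤ (BQ.card : ℝ) := by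
      have : {v : ℕ × ℕ × ℕ × ℕ | v ∈ quad n ∧ ¬ Good ε n (val2 v)} ⊆ (BQ : Set (ℕ × ℕ × ℕ × ℕ)) := by
        rintro v ⟨hv, hv2⟩
        by_contra h
        exact hv2 (hgood v hv (by rwa [mem_coe] at h))
      have h2 := Set.ncard_le_ncard this (Finset.finite_toSet _)
      rw [Set.ncard_coe_finset] at h2
      exact_mod_cast h2
    calc ({v : ℕ × ℕ × ℕ × ℕ | v ∈ quad n ∧ ¬ Good ε n (val2 v)}.ncard : ℝ) ≤ (BQ.card : ℝ) := g1
      _ ≤ (n : ℝ) ^ (1 - 3 * ε1 / 8) := hBQc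
      _ ≤ (n : ℝ) ^ (1 - ε1 / 4) := by
          have : 0 ≤ (n : ℝ) ^ (1 - 3 * ε1 / 8) := by positivity
          linarith
      _ = (n : ℝ) ^ (-(ε1 / 8)) * (n : ℝ) ^ (1 - ε1 / 8) := by
          rw [← Real.rpow_add hnpos]
          congr 1
          ring
      _ ≤ _ := by gcongr
  · have g1 : ((S \ BQ).card : ℝ) ≤ ({v : ℕ × ℕ × ℕ × ℕ | v ∈ quad n ∧ Good ε n (val2 v) ∧
        ∀ q : ℕ, q.Prime → q ∣ val2 v → c * Real.log n ^ 2 < q}.ncard : ℝ) := by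
      have hsub : ((S \ BQ : Finset (ℕ × ℕ × ℕ × ℕ)) : Set (ℕ × ℕ × ℕ × ℕ)) ⊆ {v : ℕ × ℕ × ℕ × ℕ | v ∈ quad n ∧ Good ε n (val2 v) ∧
          ∀ q : ℕ, q.Prime → q ∣ val2 v → c * Real.log n ^ 2 < q} := by
        rintro ⟨x, y, z, w⟩ hX
        rw [mem_coe, Finset.mem_sdiff] at hX
        exact ⟨hSq hX.1, hgood _ (hSq hX.1) hX.2, fun q hq hqv => (hS2 x y z w hX.1).2 q hq hqv⟩
      have hfin : {v : ℕ × ℕ × ℕ × ℕ | v ∈ quad n ∧ Good ε n (val2 v) ∧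
          ∀ q : ℕ, q.Prime → q ∣ val2 v → c * Real.log n ^ 2 < q}.Finite :=
        (Finset.finite_toSet (quad n)).subset fun v hv => hv.1
      have h2 := Set.ncard_le_ncard hsub hfin
      rw [Set.ncard_coe_finset] at h2
      exact_mod_cast h2
    refine le_trans ?_ g1
    have g2 : (S.card : ℝ) - (BQ.card : ℝ) ≤ ((S \ BQ).card : ℝ) := by
      have : S.card - BQ.card ≤ (S \ BQ).card := le_card_sdiff _ _
      have h3 : S.card ≤ (S \ BQ).card + BQ.card := by omega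
      have h4 : (S.card : ℝ) ≤ ((S \ BQ).card : ℝ) + (BQ.card : ℝ) := by exact_mod_cast h3
      linarith
    have g3 : (n : ℝ) ^ (1 - ε1 / 4) ≤ (n : ℝ) ^ (1 - ε1 / 8) := Real.rpow_le_rpow_of_exponent_le hn1 (by linarith)
    have g4 : 2 * (n : ℝ) ^ (1 - ε) ≤ (n : ℝ) ^ (1 - ε1 / 8) := by
      calc 2 * (n : ℝ) ^ (1 - ε) ≤ (n : ℝ) ^ (ε1 / 8) * (n : ℝ) ^ (1 - ε) := by gcongr
        _ = (n : ℝ) ^ (ε1 / 8 + (1 - ε)) := by rw [← Real.rpow_add hnpos]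
        _ ≤ _ := by
            apply Real.rpow_le_rpow_of_exponent_le hn1
            rw [h1]
            linarith
    linarith

end Pool.Agent.L5helper72.FQ
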